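import Pool.Agent.H23.DM.TargetsI
import Pool.Agent.H29.DW.Stmt

/-!
# The twelfth moment in the whole conductor: targets for the assembly
-/

set_option autoImplicit false

open NumberField NumberField.InfinitePlace NumberField.Units
  NumberField.Units.dirichletUnitTheorem MeasureTheory Set Filter Complex
open scoped nonZeroDivisors ENNReal

namespace Pool.Agent.H23.DM

open Pool.Agent.H25.HK Pool.Agent.H23.LB Pool.Agent.H23.LC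
open Pool.Agent.H28.RC (Rep ft idl)
open Pool.Agent.H29.DW (dg Rl lf wv Pos Wg cpar Ci om zs rv Wt PrG IsCon)
open Pool.Agent.H29.TC (Gn LC cq dvs AC MC)
open Pool.Agent.H31.SW (EE itg FF HD DB DS dif Pf GG G2 DD PP pF dK pz ps Tf WG)
open Pool.Agent.H31.SX (ND RK Gcd LK)
open Pool.Agent.H27.TM (Cls Spc Sp1 InT)

/-! ### The integral over the positions -/

/-- (RT) the sum over the residue classes. -/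
def D_RT : Prop :=
  ∀ n : ℕ, 0 < n → ∃ B : ℝ, 0 ≤ B ∧ ∀ (ε : ℝ) (p : Bool → ℂ → ℂ), 0 < ε → ε ≤ 1 → Pf p →
    ∃ C : ℝ, 0 ≤ C ∧ ∀ (K : Type) [Field K] [NumberField K], Module.finrank ℚ K = n →
    ∀ (l k : Ideal (𝓞 K)) (M : FI K) (x₀ : K) (y : InfinitePlace K → ℝ)
    (ω : InfinitePlace K → ℂ) (τ : InfinitePlace K → ℝ) (ι : Type) (J : Finset ι)
    (η : ι → 𝓞 K ⧸ k → ℂ) (c : ι → InfinitePlace K → ℂ) (cc : ι → K → ℂ) (D E u : ℝ),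
    LK l k → M ≠ 0 → Gn (Ideal.span {(2 : 𝓞 K)} * l * k) M x₀ → Pos ω → (∀ v, 1 ≤ τ v) →
    (∀ j ∈ J, LC k (η j)) → (∀ j ∈ J, Cls τ (c j)) → SpE J η c D → 1 ≤ D → 0 ≤ E →
    (∀ j ∈ J, ∀ x ∈ M, ∀ t ∈ (l : FI K) * M, cc j (x + t) = cc j x) →
    (∀ j ∈ J, ∀ x ∈ M, ‖cc j x‖ ≤ E) →
    ∑ j ∈ J, ‖∑' x : {x : K // x ∈ M}, cc j x * cq k (η j) M x₀ x *
        pF (fun v => GG (p (rv v)) (c j v + (v.mult : ℂ) * u)) y ω x‖ ^ 12 ≤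
      C * ((E * (Nf K l * Nf K k.radical)) ^ 12 *
        (D * dK K * Nf K k.radical * (1 + |u|)) ^ B * (Nf K k * PP τ) ^ (2 + ε) *
        ((1 + DD M y / Nf K l) ^ 6 *
          (1 + DD M y / Nf K l / (Nf K k * PP τ) ^ (1 / 2 : ℝ)) ^ 11))

open scoped Classical in
/-- (BI) the bound for the integral over all positions. -/
def D_BI : Prop :=
  ∀ n : ℕ, 0 < n → ∃ B₁ : ℝ, 0 ≤ B₁ ∧ ∀ ε κ : ℝ, 0 < ε → ε ≤ 1 → 0 < κ → κ ≤ ε / 24 →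
    ∃ C : ℝ, 0 ≤ C ∧ ∀ (K : Type) [Field K] [NumberField K], Module.finrank ℚ K = n →
    ∀ (ι : Type) [Fintype ι] (M : ι → FI K), Reps K M → ∀ (l k : Ideal (𝓞 K)) (x₀ : ι → K)
    (τ : InfinitePlace K → ℝ) (A : Type) (J : Finset A) (η : A → 𝓞 K ⧸ k → ℂ)
    (c : A → InfinitePlace K → ℂ) (X B D E : ℝ) (v : A → ℝ → ℂ) (cc : A → ι → K → ℂ)
    (s : Bool), LK l k → (∀ i, Gn (Ideal.span {(2 : 𝓞 K)} * l * k) (M i) (x₀ i)) →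
    (∀ v, 1 ≤ τ v) → (∀ a ∈ J, LC k (η a)) → (∀ a ∈ J, Cls τ (c a)) → SpE J η c D → 1 ≤ D →
    1 ≤ X → X ^ 2 ≤ 6 ^ n * (dK K * Nf K l * (Nf K k * PP τ)) → 0 ≤ B →
    (∀ a ∈ J, Wt κ X B (v a)) → 0 ≤ E →
    (∀ a ∈ J, ∀ i, ∀ x ∈ M i, ∀ t ∈ (l : FI K) * M i, cc a i (x + t) = cc a i x) →
    (∀ a ∈ J, ∀ i, ∀ x ∈ M i, ‖cc a i x‖ ≤ E) →
    ∑ a ∈ J, (∑ i, ∫⁻ u in Fd K ×ˢ (univ : Set ℝ) ×ˢ An K,
      ENNReal.ofReal ‖∑' x : {x : K // x ∈ M i ∧ x ≠ 0},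
        (cc a i x * cq k (η a) (M i) (x₀ i) x) * v a (Ideal.absNorm (idl K (M i) x)) *
          pF (fun v => GG (pz (rv v)) (c a v)) (yM K (M i) u.2.1 (zs s u.1))
            (om s u.2.2) x‖) ^ 12 ≤
    ENNReal.ofReal (C * ((B * E * (classNumber K * regulator K)) ^ 12 *
      (D * dK K * (Nf K l * Nf K k.radical)) ^ B₁ * (Nf K k * PP τ) ^ (2 + ε)))

/-! ### The moments -/

/-- (BP) the first sums. -/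
def D_BP : Prop :=
  ∀ n : ℕ, 0 < n → ∃ B₁ : ℝ, 0 ≤ B₁ ∧ ∀ ε κ : ℝ, 0 < ε → ε ≤ 1 → 0 < κ → κ ≤ ε / 24 →
    ∃ C : ℝ, 0 ≤ C ∧ ∀ (K : Type) [Field K] [NumberField K], Module.finrank ℚ K = n →
    ∀ (l k : Ideal (𝓞 K)), LK l k → ∀ η : HG K (l * k) → 𝓞 K ⧸ k → ℂ, LoC K l k η →
    ∀ (τ : InfinitePlace K → ℝ) (S : Finset (HG K (l * k) × ℝ)) (B D : ℝ)
    (v : HG K (l * k) × ℝ → ℝ → ℂ), (∀ v, 1 ≤ τ v) → (∀ q ∈ S, PrG k q.1) →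
    (∀ q ∈ S, Cls τ (Pool.Agent.H27.TM.cq q)) →
    SpE S (fun q => η q.1) Pool.Agent.H27.TM.cq D → 1 ≤ D → 0 ≤ B →
    (∀ q ∈ S, Wt κ (Real.sqrt (|(discr K : ℝ)| * Nf K (l * k) * Ci q.1.k q.1.ν q.2)) B (v q)) →
    ∑ q ∈ S, ‖∑' J : NZI K, q.1.ψ J.1 * v q (Ideal.absNorm J.1) *
      (Ideal.absNorm J.1 : ℂ) ^ (-(q.2 * I : ℂ))‖ ^ 12 ≤
    C * ((B * (classNumber K * regulator K)) ^ 12 *
      (D * dK K * (Nf K l * Nf K k.radical)) ^ B₁ * (Nf K k * PP τ) ^ (2 + ε))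

/-- (BQ) the dual sums. -/
def D_BQ : Prop :=
  ∀ n : ℕ, 0 < n → ∃ B₁ : ℝ, 0 ≤ B₁ ∧ ∀ ε κ : ℝ, 0 < ε → ε ≤ 1 → 0 < κ → κ ≤ ε / 24 →
    ∃ C : ℝ, 0 ≤ C ∧ ∀ (K : Type) [Field K] [NumberField K], Module.finrank ℚ K = n →
    ∀ (l k : Ideal (𝓞 K)), LK l k → ∀ η : HG K (l * k) → 𝓞 K ⧸ k → ℂ, LoC K l k η →
    ∀ (Y : Sys K (l * k)) (τ : InfinitePlace K → ℝ) (S : Finset (HG K (l * k) × ℝ)) (B D : ℝ)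
    (v : HG K (l * k) × ℝ → ℝ → ℂ), (∀ v, 1 ≤ τ v) → (∀ q ∈ S, PrG k q.1) →
    (∀ q ∈ S, Cls τ (Pool.Agent.H27.TM.cq q)) →
    SpE S (fun q => η q.1) Pool.Agent.H27.TM.cq D → 1 ≤ D → 0 ≤ B →
    (∀ q ∈ S, Wt κ (Real.sqrt (|(discr K : ℝ)| * Nf K (l * k) * Ci q.1.k q.1.ν q.2)) B (v q)) →
    ∑ q ∈ S, ‖∑' J : NZI K, cd Y q.1 J.1 * v q (Ideal.absNorm J.1) *
      (Ideal.absNorm J.1 : ℂ) ^ (q.2 * I : ℂ)‖ ^ 12 ≤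
    C * ((B * (classNumber K * regulator K)) ^ 12 *
      (D * dK K * (Nf K l * Nf K k.radical)) ^ B₁ * (Nf K k * PP τ) ^ (2 + ε))

/-- (LT) the twelfth moment of a class. -/
def D_LT : Prop :=
  ∀ n : ℕ, 0 < n → ∃ B : ℝ, 0 ≤ B ∧ ∀ ε : ℝ, 0 < ε → ε ≤ 1 → ∃ C : ℝ, 0 ≤ C ∧
    ∀ (K : Type) [Field K] [NumberField K], Module.finrank ℚ K = n →
    ∀ (l k : Ideal (𝓞 K)), LK l k → ∀ (Y : Sys K (l * k)) (L : HG K (l * k) → ℂ → ℂ),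
    (∀ χ, IsL Y χ (L χ)) → ∀ (τ : InfinitePlace K → ℝ) (S : Finset (HG K (l * k) × ℝ)),
    (∀ v, 1 ≤ τ v) → (∀ q ∈ S, PrG k q.1) → (∀ q ∈ S, Cls τ (Pool.Agent.H27.TM.cq q)) →
    Sp1 S → ∑ q ∈ S, ‖L q.1 (1 / 2 + q.2 * I)‖ ^ 12 ≤
      C * ((dK K * (Nf K l * Nf K k.radical)) ^ B * (Nf K k * PP τ) ^ (2 + ε))

/-- (TM) the twelfth moment. -/
def D_TM : Prop :=
  ∀ n : ℕ, 0 < n → ∃ B : ℝ, 0 ≤ B ∧ ∀ ε : ℝ, 0 < ε → ε ≤ 1 → ∃ C : ℝ, 0 ≤ C ∧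
    ∀ (K : Type) [Field K] [NumberField K], Module.finrank ℚ K = n →
    ∀ (l k : Ideal (𝓞 K)), LK l k → ∀ (Y : Sys K (l * k)) (L : HG K (l * k) → ℂ → ℂ),
    (∀ χ, IsL Y χ (L χ)) → ∀ (T : InfinitePlace K → ℝ) (S : Finset (HG K (l * k) × ℝ)),
    (∀ v, 1 ≤ T v) → (∀ q ∈ S, PrG k q.1) → InT T S → Sp1 S →
    ∑ q ∈ S, ‖L q.1 (1 / 2 + q.2 * I)‖ ^ 12 ≤
      C * ((dK K * (Nf K l * Nf K k.radical)) ^ B * (Nf K k * PP T) ^ (2 + ε))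

/-- (FI) the theorem. -/
def D_FI : Prop :=
  ∀ m : ℕ, 1 ≤ m → ∃ B : ℝ, ∀ ε : ℝ, 0 < ε → ∃ C : ℝ, ∀ (K : Type) [Field K] [NumberField K],
    Module.finrank ℚ K = m → ∀ l k : Ideal (𝓞 K), LK l k →
    ∃ L : HG K (l * k) → ℂ → ℂ, (∀ χ : HG K (l * k), IsCon χ (L χ)) ∧
    (∀ (T : InfinitePlace K → ℝ) (S : Finset (HG K (l * k) × ℝ)), (∀ v, 1 ≤ T v) →
      (∀ q ∈ S, PrG k q.1) →
      (∀ p ∈ S, ∀ q ∈ S, p.1 = q.1 → p.2 ≠ q.2 → 1 ≤ |p.2 - q.2|) →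
      (∀ q ∈ S, ∀ v : InfinitePlace K, 1 + |q.2 - q.1.ν v| + |(q.1.k v : ℝ)| ≤ T v) →
      ∑ q ∈ S, ‖L q.1 (1 / 2 + q.2 * I)‖ ^ 12 ≤
        C * (|(discr K : ℝ)| * Ideal.absNorm l * Ideal.absNorm k.radical) ^ B *
          (Ideal.absNorm k * ∏ v, T v ^ v.mult) ^ (2 + ε)) ∧
    ∀ T : ℝ, 1 ≤ T → (box K (l * k) T).Finite ∧
      ∑ᶠ χ ∈ {χ | χ ∈ box K (l * k) T ∧ PrG k χ},
        ∫ t in (-T)..T, ‖L χ (1 / 2 + t * I)‖ ^ 12 ≤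
          C * (|(discr K : ℝ)| * Ideal.absNorm l * Ideal.absNorm k.radical) ^ B *
            (Ideal.absNorm k * T ^ m) ^ (2 + ε) ∧
      ∀ V : ℝ, 0 < V →
        ({χ | χ ∈ box K (l * k) T ∧ PrG k χ ∧
            ∃ t : ℝ, |t| ≤ T ∧ V < ‖L χ (1 / 2 + t * I)‖}.ncard : ℝ) ≤
          C * (|(discr K : ℝ)| * Ideal.absNorm l * Ideal.absNorm k.radical) ^ B *
            (Ideal.absNorm k * T ^ m) ^ (2 + ε) / V ^ 12 ∧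
        ∑ᶠ χ ∈ {χ | χ ∈ box K (l * k) T ∧ PrG k χ},
          (volume {t : ℝ | |t| ≤ T ∧ V < ‖L χ (1 / 2 + t * I)‖}).toReal ≤
          C * (|(discr K : ℝ)| * Ideal.absNorm l * Ideal.absNorm k.radical) ^ B *
            (Ideal.absNorm k * T ^ m) ^ (2 + ε) / V ^ 12

end Pool.Agent.H23.DM
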