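import Pool.Agent.H23.DM.TargetsG
import Pool.Agent.H23.DM.TargetsA
import Pool.Agent.H23.SM.Targets

/-!
# Mean squares over families of boxes and cosets (an inequality of Heath-Brown): targets
-/

set_option autoImplicit false

open NumberField NumberField.InfinitePlace NumberField.Units
  NumberField.Units.dirichletUnitTheorem MeasureTheory Set Filter Complex
open scoped nonZeroDivisors ENNReal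

namespace Pool.Agent.H23.DM

open Pool.Agent.H25.HK Pool.Agent.H23.LB Pool.Agent.H23.LC
open Pool.Agent.H28.RC (Rep ft idl)
open Pool.Agent.H29.DW (dg Rl lf wv Pos Wg cpar Ci om zs rv Wt PrG IsCon)
open Pool.Agent.H29.TC (Gn LC cq dvs AC MC)
open Pool.Agent.H31.SW (EE itg FF HD DB DS dif Pf GG G2 DD PP pF dK pz ps Tf WG)
open Pool.Agent.H31.SX (ND RK Gcd LK)
open Pool.Agent.H27.TM (Sh S4 lo Maj G3 kp El Cr Am mf Dl mc Ep Cls Spc bt th1 Sp1 InT)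

section defs

variable {K : Type} [Field K] [NumberField K]

/-- the ideal of the cosets: `κ ^ 3` divides `k`, and `k` divides `κ ^ 6` -/
structure Kq (k κ : Ideal (𝓞 K)) : Prop where
  le_cub : k ≤ κ ^ 3
  six_le : κ ^ 6 ≤ k
  le_rad : κ ≤ k.radical

/-- the labels `bl`: indices with the same label are close -/
def Lab {k : Ideal (𝓞 K)} (κ : Ideal (𝓞 K)) {ι : Type} (J : Finset ι) (bl : ι → ℕ)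
    (η : ι → 𝓞 K ⧸ k → ℂ) (c : ι → InfinitePlace K → ℂ) (H : InfinitePlace K → ℝ) : Prop :=
  ∀ i ∈ J, ∀ j ∈ J, bl i = bl j →
    (∀ t ∈ κ, η i (Ideal.Quotient.mk k (1 + t)) = η j (Ideal.Quotient.mk k (1 + t))) ∧
    ∀ v, ‖c i v - c j v‖ ≤ 2 * H v

/-- `N(k) ∏ max(τ, H ^ 3) / (N(κ) ∏ H) ^ 2` and the number of the labels:
`R G + R ^ (1/2) T G ^ (-2)` -/
noncomputable def QB (k κ : Ideal (𝓞 K)) (τ H : InfinitePlace K → ℝ) (R : ℝ) : ℝ :=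
  R * (Nf K κ * PP H) + R ^ (1 / 2 : ℝ) *
    (Nf K k * PP (fun v => max (τ v) (H v ^ 3)) / (Nf K κ * PP H) ^ 2)

end defs

/-- (QP) the dual sums, all densities. -/
def D_QP : Prop :=
  ∀ (n : ℕ) (ε : ℝ), 0 < n → 0 < ε → ∃ N : ℕ, n + 5 ≤ N ∧ ∀ C₁ : ℝ, 0 ≤ C₁ → ∃ C : ℝ, 0 ≤ C ∧
    ∀ (K : Type) [Field K] [NumberField K], Module.finrank ℚ K = n →
    ∀ (l k κ b κ₃ b₃ e k' : Ideal (𝓞 K)) (M : FI K) (y : InfinitePlace K → ℝ)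
    (ω : InfinitePlace K → ℂ) (G α τ : InfinitePlace K → ℝ) (A : Set K) (ι : Type)
    (I : Finset ι) (γ : ι → 𝓞 K) (c : ι → InfinitePlace K → ℂ) (E : ι → K → ℂ) (D : ℝ)
    (Q : InfinitePlace K → ℂ → ℂ) (bb : K → ℂ), l ≠ ⊥ → k ≠ ⊥ → M ≠ 0 → Pos ω →
    Ch k κ b κ₃ b₃ → k = e * k' → e ≤ κ → CO k.radical e k' I γ E →
    (∀ δ ∈ A, 2 * δ ∈ ((l * e : Ideal (𝓞 K)) : FI K) * M ∧
      ∀ v, α v ≤ ‖wv v δ y ω‖ ∧ ‖wv v δ y ω‖ < 2 * α v) →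
    (∀ v, 1 ≤ G v ∧ 0 < α v ∧ α v ≤ 1 / 10000 ∧ G v * α v ≤ 1 / 10000 ∧ G v ^ 3 ≤ τ v) →
    (∀ i ∈ I, Cls τ (c i)) →
    (∀ i ∈ I, ∀ j ∈ I, γ i - γ j ∈ b₃ ∧ ∀ v, ‖c i v - c j v‖ ≤ 2 * G v ^ 3) →
    SpG I b γ c G D → 1 ≤ D → (∀ v, Am N C₁ (rv v) (Q v)) →
    (∀ ν, ‖bb ν‖ ≤ de A (du K (((l * (k.radical ⊓ k') : Ideal (𝓞 K)) : FI K) * M)) ν) →
    ∑ i ∈ I, ‖∑' ν : {ν : K // ν ∈ Nz K k.radical k' e}, bb ν * (E i ν * Ep α Q (c i) ν)‖ ≤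
      C * (D * dK K ^ 2 * Nf K k.radical ^ 2 * (Nf K k * PP τ) ^ ε *
        (Real.sqrt (Nf K k') * ((I.card : ℝ) ^ (1 / 2 : ℝ) *
          ((Nf K k * PP τ) ^ (1 / 2 : ℝ) * (Nf K κ * PP G) ^ (-(3 / 2) : ℝ)) +
            I.card * (1 + DD M y / Nf K l / (Nf K k * PP τ)))))

/-- (QO) the sums over the differences of a given class, all densities. -/
def D_QO : Prop :=
  ∀ (n : ℕ) (ε : ℝ) (q Ψ : Bool → ℂ → ℂ), 0 < n → 0 < ε → Pf q → Pf Ψ → ∃ C : ℝ, 0 ≤ C ∧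
    ∀ (K : Type) [Field K] [NumberField K], Module.finrank ℚ K = n →
    ∀ (l k κ b κ₃ b₃ e k' : Ideal (𝓞 K)) (M : FI K) (y : InfinitePlace K → ℝ)
    (ω : InfinitePlace K → ℂ) (ρ : K) (G α τ : InfinitePlace K → ℝ) (A : Set K) (ι : Type)
    (I : Finset ι) (γ : ι → 𝓞 K) (c : ι → InfinitePlace K → ℂ) (qq E : ι → K → ℂ) (D : ℝ),
    l ≠ ⊥ → l ≤ Ideal.span {(2 : 𝓞 K)} → k ≠ ⊥ → M ≠ 0 → Pos ω → ρ ∈ M →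
    Ch k κ b κ₃ b₃ → e ≤ κ → FT l k k.radical e k' M ρ A I qq E →
    CO k.radical e k' I γ E → (∀ δ ∈ A, ∀ v, α v ≤ ‖wv v δ y ω‖ ∧ ‖wv v δ y ω‖ < 2 * α v) →
    (∀ v, 1 ≤ G v ∧ 0 < α v ∧ α v ≤ 1 / 10000 ∧ G v * α v ≤ 1 / 10000 ∧ G v ^ 3 ≤ τ v) →
    (∀ i ∈ I, Cls τ (c i)) →
    (∀ i ∈ I, ∀ j ∈ I, γ i - γ j ∈ b₃ ∧ ∀ v, ‖c i v - c j v‖ ≤ 2 * G v ^ 3) →
    SpG I b γ c G D → 1 ≤ D →
    ∑ i ∈ I, ‖OQ q Ψ A (((l * k.radical : Ideal (𝓞 K)) : FI K) * M) y ω ρ (qq i) G (c i)‖ ≤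
      C * (DD M y / Nf K l * (D * dK K ^ 2 * Nf K k.radical ^ 2 * (Nf K k * PP τ) ^ ε *
        ((I.card : ℝ) ^ (1 / 2 : ℝ) *
          ((Nf K k * PP τ) ^ (1 / 2 : ℝ) * (Nf K κ * PP G) ^ (-(3 / 2) : ℝ)) +
            I.card * (1 + DD M y / Nf K l / (Nf K k * PP τ)))))

/-- (Q1) the mean square over a family of boxes with small radii at a fixed position. -/
def D_Q1 : Prop :=
  ∀ (n : ℕ) (ε : ℝ) (p : Bool → ℂ → ℂ), 0 < n → 0 < ε → Pf p → ∃ C : ℝ, 0 ≤ C ∧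
    ∀ (K : Type) [Field K] [NumberField K], Module.finrank ℚ K = n →
    ∀ (l k κ : Ideal (𝓞 K)) (θ : 𝓞 K ⧸ k → ℂ) (M : FI K) (x₀ : K)
    (y : InfinitePlace K → ℝ) (ω : InfinitePlace K → ℂ) (ρ : K) (G τ : InfinitePlace K → ℝ)
    (ι : Type) (J : Finset ι) (bl : ι → ℕ) (η : ι → 𝓞 K ⧸ k → ℂ) (γ : ι → 𝓞 K)
    (c : ι → InfinitePlace K → ℂ) (D : ℝ), FP l k M x₀ → Pos ω → ρ ∈ M → Kq k κ →
    FM k κ θ J η γ → (∀ v, 1 ≤ G v ∧ G v ^ 3 ≤ τ v) → (∀ j ∈ J, Cls τ (c j)) →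
    Lab κ J bl η c G → SpE J η c D → 1 ≤ D →
    ∑ j ∈ J, ‖SQ p (((l * k.radical : Ideal (𝓞 K)) : FI K) * M) y ω ρ (cq k (η j) M x₀)
        (c j)‖ ^ 2 ≤
      C * (D * dK K ^ 2 * Nf K k.radical ^ 3 * (Nf K k * PP τ) ^ ε *
        QB k κ τ G ((J.image bl).card : ℝ) *
        ((1 + DD M y / Nf K l) * (1 + DD M y / Nf K l / (Nf K k * PP τ)) ^ (3 / 2 : ℝ)))

/-- (Q2) the mean square over a family of boxes at a fixed position. -/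
def D_Q2 : Prop :=
  ∀ (n : ℕ) (ε : ℝ) (p : Bool → ℂ → ℂ), 0 < n → 0 < ε → Pf p → ∃ C : ℝ, 0 ≤ C ∧
    ∀ (K : Type) [Field K] [NumberField K], Module.finrank ℚ K = n →
    ∀ (l k κ : Ideal (𝓞 K)) (θ : 𝓞 K ⧸ k → ℂ) (M : FI K) (x₀ : K)
    (y : InfinitePlace K → ℝ) (ω : InfinitePlace K → ℂ) (ρ : K) (H τ : InfinitePlace K → ℝ)
    (ι : Type) (J : Finset ι) (bl : ι → ℕ) (η : ι → 𝓞 K ⧸ k → ℂ) (γ : ι → 𝓞 K)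
    (c : ι → InfinitePlace K → ℂ) (D : ℝ), FP l k M x₀ → Pos ω → ρ ∈ M → Kq k κ →
    FM k κ θ J η γ → (∀ v, 1 ≤ H v ∧ 1 ≤ τ v) → (∀ j ∈ J, Cls τ (c j)) →
    Lab κ J bl η c H → SpE J η c D → 1 ≤ D →
    ∑ j ∈ J, ‖SQ p (((l * k.radical : Ideal (𝓞 K)) : FI K) * M) y ω ρ (cq k (η j) M x₀)
        (c j)‖ ^ 2 ≤
      C * (D * dK K ^ 2 * Nf K k.radical ^ 3 * (Nf K k * PP τ) ^ ε *
        QB k κ τ H ((J.image bl).card : ℝ) *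
        ((1 + DD M y / Nf K l) * (1 + DD M y / Nf K l / (Nf K k * PP τ)) ^ (3 / 2 : ℝ)))

/-- (QF) the mean square for a wider class of frequencies. -/
def D_QF : Prop :=
  ∀ n : ℕ, 0 < n → ∃ B : ℝ, 0 ≤ B ∧ ∀ (ε : ℝ) (p : Bool → ℂ → ℂ), 0 < ε → ε ≤ 1 → Pf p →
    ∃ C : ℝ, 0 ≤ C ∧ ∀ (K : Type) [Field K] [NumberField K], Module.finrank ℚ K = n →
    ∀ (l k κ : Ideal (𝓞 K)) (M : FI K) (x₀ : K) (y : InfinitePlace K → ℝ)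
    (ω : InfinitePlace K → ℂ) (ρ : K) (H τ : InfinitePlace K → ℝ) (ι : Type) (J : Finset ι)
    (bl : ι → ℕ) (η : ι → 𝓞 K ⧸ k → ℂ) (c : ι → InfinitePlace K → ℂ) (D Λ : ℝ),
    FP l k M x₀ → Pos ω → ρ ∈ M → Kq k κ → (∀ j ∈ J, LC k (η j)) → 1 ≤ Λ →
    (∀ v, 1 ≤ H v ∧ 1 ≤ τ v) →
    (∀ j ∈ J, ∀ v, Rl (rv v) (c j v) ∧ τ v ≤ Λ * (1 + ‖c j v‖) ∧ 1 + ‖c j v‖ ≤ Λ * τ v) →
    Lab κ J bl η c H → SpE J η c D → 1 ≤ D →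
    ∑ j ∈ J, ‖SQ p (((l * k.radical : Ideal (𝓞 K)) : FI K) * M) y ω ρ (cq k (η j) M x₀)
        (c j)‖ ^ 2 ≤
      C * ((D * dK K * Nf K k.radical * Λ) ^ B * (Nf K k * PP τ) ^ ε *
        QB k κ τ H ((J.image bl).card : ℝ) *
        ((1 + DD M y / Nf K l) * (1 + DD M y / Nf K l / (Nf K k * PP τ)) ^ (3 / 2 : ℝ)))

/-- (QR) the sum over the residue classes. -/
def D_QR : Prop :=
  ∀ n : ℕ, 0 < n → ∃ B : ℝ, 0 ≤ B ∧ ∀ (ε : ℝ) (p : Bool → ℂ → ℂ), 0 < ε → ε ≤ 1 → Pf p →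
    ∃ C : ℝ, 0 ≤ C ∧ ∀ (K : Type) [Field K] [NumberField K], Module.finrank ℚ K = n →
    ∀ (l k κ : Ideal (𝓞 K)) (M : FI K) (x₀ : K) (y : InfinitePlace K → ℝ)
    (ω : InfinitePlace K → ℂ) (H τ : InfinitePlace K → ℝ) (ι : Type) (J : Finset ι)
    (bl : ι → ℕ) (η : ι → 𝓞 K ⧸ k → ℂ) (c : ι → InfinitePlace K → ℂ) (cc : ι → K → ℂ)
    (D E u : ℝ), LK l k → M ≠ 0 → Gn (Ideal.span {(2 : 𝓞 K)} * l * k) M x₀ → Pos ω →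
    Kq k κ → (∀ v, 1 ≤ H v ∧ 1 ≤ τ v) → (∀ j ∈ J, LC k (η j)) → (∀ j ∈ J, Cls τ (c j)) →
    Lab κ J bl η c H → SpE J η c D → 1 ≤ D → 0 ≤ E →
    (∀ j ∈ J, ∀ x ∈ M, ∀ t ∈ (l : FI K) * M, cc j (x + t) = cc j x) →
    (∀ j ∈ J, ∀ x ∈ M, ‖cc j x‖ ≤ E) →
    ∑ j ∈ J, ‖∑' x : {x : K // x ∈ M}, cc j x * cq k (η j) M x₀ x *
        pF (fun v => GG (p (rv v)) (c j v + (v.mult : ℂ) * u)) y ω x‖ ^ 2 ≤
      C * ((E * (Nf K l * Nf K k.radical)) ^ 2 *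
        (D * dK K * Nf K k.radical * (1 + |u|)) ^ B * (Nf K k * PP τ) ^ ε *
        QB k κ τ H ((J.image bl).card : ℝ) *
        ((1 + DD M y / Nf K l) * (1 + DD M y / Nf K l / (Nf K k * PP τ)) ^ (3 / 2 : ℝ)))

open scoped Classical in
/-- (QI) the bound for the integral over all positions. -/
def D_QI : Prop :=
  ∀ n : ℕ, 0 < n → ∃ B₁ : ℝ, 0 ≤ B₁ ∧ ∀ ε ε' : ℝ, 0 < ε → ε ≤ 1 → 0 < ε' → ε' ≤ ε / 24 →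
    ∃ C : ℝ, 0 ≤ C ∧ ∀ (K : Type) [Field K] [NumberField K], Module.finrank ℚ K = n →
    ∀ (ι : Type) [Fintype ι] (M : ι → FI K), Reps K M → ∀ (l k κ : Ideal (𝓞 K)) (x₀ : ι → K)
    (H τ : InfinitePlace K → ℝ) (A : Type) (J : Finset A) (bl : A → ℕ)
    (η : A → 𝓞 K ⧸ k → ℂ) (c : A → InfinitePlace K → ℂ) (X B D E : ℝ) (v : A → ℝ → ℂ)
    (cc : A → ι → K → ℂ) (s : Bool), LK l k →
    (∀ i, Gn (Ideal.span {(2 : 𝓞 K)} * l * k) (M i) (x₀ i)) → Kq k κ →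
    (∀ v, 1 ≤ H v ∧ 1 ≤ τ v) → (∀ a ∈ J, LC k (η a)) → (∀ a ∈ J, Cls τ (c a)) →
    Lab κ J bl η c H → SpE J η c D → 1 ≤ D → 1 ≤ X →
    X ^ 2 ≤ 6 ^ n * (dK K * Nf K l * (Nf K k * PP τ)) → 0 ≤ B →
    (∀ a ∈ J, Wt ε' X B (v a)) → 0 ≤ E →
    (∀ a ∈ J, ∀ i, ∀ x ∈ M i, ∀ t ∈ (l : FI K) * M i, cc a i (x + t) = cc a i x) →
    (∀ a ∈ J, ∀ i, ∀ x ∈ M i, ‖cc a i x‖ ≤ E) →
    ∑ a ∈ J, (∑ i, ∫⁻ u in Fd K ×ˢ (univ : Set ℝ) ×ˢ An K,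
      ENNReal.ofReal ‖∑' x : {x : K // x ∈ M i ∧ x ≠ 0},
        (cc a i x * cq k (η a) (M i) (x₀ i) x) * v a (Ideal.absNorm (idl K (M i) x)) *
          pF (fun v => GG (pz (rv v)) (c a v)) (yM K (M i) u.2.1 (zs s u.1))
            (om s u.2.2) x‖) ^ 2 ≤
    ENNReal.ofReal (C * ((B * E * (classNumber K * regulator K)) ^ 2 *
      (D * dK K * (Nf K l * Nf K k.radical)) ^ B₁ * (Nf K k * PP τ) ^ ε *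
        QB k κ τ H ((J.image bl).card : ℝ)))

/-- two pairs are close: the frequencies differ by at most `H`, and the quotient of the characters
is trivial at the primes of `k` on `1 + κ` -/
def Clq {K : Type} [Field K] [NumberField K] {l k : Ideal (𝓞 K)} (κ : Ideal (𝓞 K))
    (H : InfinitePlace K → ℝ) (p q : HG K (l * k) × ℝ) : Prop :=
  (∀ v : InfinitePlace K,
    |(p.2 - p.1.ν v) - (q.2 - q.1.ν v)| + |(p.1.k v : ℝ) - q.1.k v| ≤ H v) ∧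
  ∀ a : 𝓞 K, a ≠ 0 → a - 1 ∈ l * κ →
    p.1.ψ (Ideal.span {a}) * (ag q.1.k (a : K) * ph q.1.ν (a : K)) =
      q.1.ψ (Ideal.span {a}) * (ag p.1.k (a : K) * ph p.1.ν (a : K))

/-- (QN) close pairs have close local data. -/
def D_QN : Prop :=
  ∀ (K : Type) [Field K] [NumberField K] (l k κ : Ideal (𝓞 K)), LK l k → k ≤ κ →
    ∀ η : HG K (l * k) → 𝓞 K ⧸ k → ℂ, LoC K l k η → ∀ (H : InfinitePlace K → ℝ)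
    (p q : HG K (l * k) × ℝ), PrG k p.1 → PrG k q.1 → Clq κ H p q →
    (∀ t ∈ κ, η p.1 (Ideal.Quotient.mk k (1 + t)) = η q.1 (Ideal.Quotient.mk k (1 + t))) ∧
    ∀ v, ‖Pool.Agent.H27.TM.cq p v - Pool.Agent.H27.TM.cq q v‖ ≤ 2 * H v

/-- (QBP) the first sums. -/
def D_QBP : Prop :=
  ∀ n : ℕ, 0 < n → ∃ B₁ : ℝ, 0 ≤ B₁ ∧ ∀ ε ε' : ℝ, 0 < ε → ε ≤ 1 → 0 < ε' → ε' ≤ ε / 24 →
    ∃ C : ℝ, 0 ≤ C ∧ ∀ (K : Type) [Field K] [NumberField K], Module.finrank ℚ K = n →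
    ∀ (l k κ : Ideal (𝓞 K)), LK l k → Kq k κ → ∀ η : HG K (l * k) → 𝓞 K ⧸ k → ℂ,
    LoC K l k η → ∀ (H τ : InfinitePlace K → ℝ) (S : Finset (HG K (l * k) × ℝ))
    (bl : HG K (l * k) × ℝ → ℕ) (B D : ℝ) (v : HG K (l * k) × ℝ → ℝ → ℂ),
    (∀ v, 1 ≤ H v ∧ 1 ≤ τ v) → (∀ q ∈ S, PrG k q.1) →
    (∀ q ∈ S, Cls τ (Pool.Agent.H27.TM.cq q)) →
    Lab κ S bl (fun q => η q.1) Pool.Agent.H27.TM.cq H →
    SpE S (fun q => η q.1) Pool.Agent.H27.TM.cq D → 1 ≤ D → 0 ≤ B →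
    (∀ q ∈ S, Wt ε' (Real.sqrt (|(discr K : ℝ)| * Nf K (l * k) * Ci q.1.k q.1.ν q.2)) B (v q)) →
    ∑ q ∈ S, ‖∑' J : NZI K, q.1.ψ J.1 * v q (Ideal.absNorm J.1) *
      (Ideal.absNorm J.1 : ℂ) ^ (-(q.2 * I : ℂ))‖ ^ 2 ≤
    C * ((B * (classNumber K * regulator K)) ^ 2 *
      (D * dK K * (Nf K l * Nf K k.radical)) ^ B₁ * (Nf K k * PP τ) ^ ε *
        QB k κ τ H ((S.image bl).card : ℝ))

/-- (QBQ) the dual sums. -/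
def D_QBQ : Prop :=
  ∀ n : ℕ, 0 < n → ∃ B₁ : ℝ, 0 ≤ B₁ ∧ ∀ ε ε' : ℝ, 0 < ε → ε ≤ 1 → 0 < ε' → ε' ≤ ε / 24 →
    ∃ C : ℝ, 0 ≤ C ∧ ∀ (K : Type) [Field K] [NumberField K], Module.finrank ℚ K = n →
    ∀ (l k κ : Ideal (𝓞 K)), LK l k → Kq k κ → ∀ η : HG K (l * k) → 𝓞 K ⧸ k → ℂ,
    LoC K l k η → ∀ (Y : Sys K (l * k)) (H τ : InfinitePlace K → ℝ)
    (S : Finset (HG K (l * k) × ℝ)) (bl : HG K (l * k) × ℝ → ℕ) (B D : ℝ)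
    (v : HG K (l * k) × ℝ → ℝ → ℂ), (∀ v, 1 ≤ H v ∧ 1 ≤ τ v) → (∀ q ∈ S, PrG k q.1) →
    (∀ q ∈ S, Cls τ (Pool.Agent.H27.TM.cq q)) →
    Lab κ S bl (fun q => η q.1) Pool.Agent.H27.TM.cq H →
    SpE S (fun q => η q.1) Pool.Agent.H27.TM.cq D → 1 ≤ D → 0 ≤ B →
    (∀ q ∈ S, Wt ε' (Real.sqrt (|(discr K : ℝ)| * Nf K (l * k) * Ci q.1.k q.1.ν q.2)) B (v q)) →
    ∑ q ∈ S, ‖∑' J : NZI K, cd Y q.1 J.1 * v q (Ideal.absNorm J.1) *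
      (Ideal.absNorm J.1 : ℂ) ^ (q.2 * I : ℂ)‖ ^ 2 ≤
    C * ((B * (classNumber K * regulator K)) ^ 2 *
      (D * dK K * (Nf K l * Nf K k.radical)) ^ B₁ * (Nf K k * PP τ) ^ ε *
        QB k κ τ H ((S.image bl).card : ℝ))

/-- (QL) the mean square of a class over a family of boxes. -/
def D_QL : Prop :=
  ∀ n : ℕ, 0 < n → ∃ B : ℝ, 0 ≤ B ∧ ∀ ε : ℝ, 0 < ε → ε ≤ 1 → ∃ C : ℝ, 0 ≤ C ∧
    ∀ (K : Type) [Field K] [NumberField K], Module.finrank ℚ K = n →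
    ∀ (l k κ : Ideal (𝓞 K)), LK l k → Kq k κ → ∀ (Y : Sys K (l * k))
    (L : HG K (l * k) → ℂ → ℂ), (∀ χ, IsL Y χ (L χ)) → ∀ (H τ : InfinitePlace K → ℝ)
    (S : Finset (HG K (l * k) × ℝ)) (bl : HG K (l * k) × ℝ → ℕ), (∀ v, 1 ≤ H v ∧ 1 ≤ τ v) →
    (∀ q ∈ S, PrG k q.1) → (∀ q ∈ S, Cls τ (Pool.Agent.H27.TM.cq q)) → Sp1 S →
    (∀ p ∈ S, ∀ q ∈ S, bl p = bl q → Clq κ H p q) →
    ∑ q ∈ S, ‖L q.1 (1 / 2 + q.2 * I)‖ ^ 2 ≤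
      C * ((dK K * (Nf K l * Nf K k.radical)) ^ B * (Nf K k * PP τ) ^ ε *
        QB k κ τ H ((S.image bl).card : ℝ))

/-- (QT) the mean square over a family of boxes. -/
def D_QT : Prop :=
  ∀ n : ℕ, 0 < n → ∃ B : ℝ, 0 ≤ B ∧ ∀ ε : ℝ, 0 < ε → ε ≤ 1 → ∃ C : ℝ, 0 ≤ C ∧
    ∀ (K : Type) [Field K] [NumberField K], Module.finrank ℚ K = n →
    ∀ (l k κ : Ideal (𝓞 K)), LK l k → Kq k κ → ∀ (Y : Sys K (l * k))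
    (L : HG K (l * k) → ℂ → ℂ), (∀ χ, IsL Y χ (L χ)) → ∀ (H T : InfinitePlace K → ℝ)
    (S : Finset (HG K (l * k) × ℝ)) (bl : HG K (l * k) × ℝ → ℕ),
    (∀ v, 1 ≤ H v ∧ H v ^ 3 ≤ T v) → (∀ q ∈ S, PrG k q.1) → InT T S → Sp1 S →
    (∀ p ∈ S, ∀ q ∈ S, bl p = bl q → Clq κ H p q) →
    ∑ q ∈ S, ‖L q.1 (1 / 2 + q.2 * I)‖ ^ 2 ≤
      C * ((dK K * (Nf K l * Nf K k.radical)) ^ B * (Nf K k * PP T) ^ ε *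
        (((S.image bl).card : ℝ) * (Nf K κ * PP H) + ((S.image bl).card : ℝ) ^ (1 / 2 : ℝ) *
          (Nf K k * PP T / (Nf K κ * PP H) ^ 2)))

/-- (QH) the moments of the orders between `2` and `12` over a family of boxes. -/
def D_QH : Prop :=
  ∀ n : ℕ, 0 < n → ∃ B : ℝ, 0 ≤ B ∧ ∀ ε : ℝ, 0 < ε → ε ≤ 1 → ∃ C : ℝ, 0 ≤ C ∧
    ∀ (K : Type) [Field K] [NumberField K], Module.finrank ℚ K = n →
    ∀ (l k κ : Ideal (𝓞 K)), LK l k → Kq k κ → ∀ (Y : Sys K (l * k))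
    (L : HG K (l * k) → ℂ → ℂ), (∀ χ, IsL Y χ (L χ)) → ∀ (H T : InfinitePlace K → ℝ)
    (S : Finset (HG K (l * k) × ℝ)) (bl : HG K (l * k) × ℝ → ℕ) (p : ℝ),
    (∀ v, 1 ≤ H v ∧ H v ^ 3 ≤ T v) → (∀ q ∈ S, PrG k q.1) → InT T S → Sp1 S →
    (∀ p ∈ S, ∀ q ∈ S, bl p = bl q → Clq κ H p q) → 2 ≤ p → p ≤ 12 →
    ∑ q ∈ S, ‖L q.1 (1 / 2 + q.2 * I)‖ ^ p ≤
      C * ((dK K * (Nf K l * Nf K k.radical)) ^ B * (Nf K k * PP T) ^ ((p - 2) / 5 + ε) *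
        (((S.image bl).card : ℝ) * (Nf K κ * PP H) + ((S.image bl).card : ℝ) ^ (1 / 2 : ℝ) *
          (Nf K k * PP T / (Nf K κ * PP H) ^ 2)) ^ ((12 - p) / 10))

/-- (QFI) the theorem: `R` boxes and cosets, the orders between `2` and `12`. -/
def D_QFI : Prop :=
  ∀ m : ℕ, 1 ≤ m → ∃ B : ℝ, ∀ ε : ℝ, 0 < ε → ∃ C : ℝ, ∀ (K : Type) [Field K] [NumberField K],
    Module.finrank ℚ K = m → ∀ l k κ : Ideal (𝓞 K), LK l k → k ≤ κ ^ 3 → κ ^ 6 ≤ k →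
    κ ≤ k.radical → ∃ L : HG K (l * k) → ℂ → ℂ, (∀ χ : HG K (l * k), IsCon χ (L χ)) ∧
    ∀ (p : ℝ) (T H : InfinitePlace K → ℝ) (R : ℕ) (S : Finset (HG K (l * k) × ℝ))
      (bl : HG K (l * k) × ℝ → ℕ), 2 ≤ p → p ≤ 12 → (∀ v, 1 ≤ H v ∧ H v ^ 3 ≤ T v) →
      (∀ q ∈ S, PrG k q.1) →
      (∀ p ∈ S, ∀ q ∈ S, p.1 = q.1 → p.2 ≠ q.2 → 1 ≤ |p.2 - q.2|) →
      (∀ q ∈ S, ∀ v : InfinitePlace K, 1 + |q.2 - q.1.ν v| + |(q.1.k v : ℝ)| ≤ T v) →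
      (∀ q ∈ S, bl q < R) →
      (∀ p ∈ S, ∀ q ∈ S, bl p = bl q → (∀ v : InfinitePlace K,
        |(p.2 - p.1.ν v) - (q.2 - q.1.ν v)| + |(p.1.k v : ℝ) - q.1.k v| ≤ H v) ∧
        ∀ a : 𝓞 K, a ≠ 0 → a - 1 ∈ l * κ →
          p.1.ψ (Ideal.span {a}) * (ag q.1.k (a : K) * ph q.1.ν (a : K)) =
            q.1.ψ (Ideal.span {a}) * (ag p.1.k (a : K) * ph p.1.ν (a : K))) →
      ∑ q ∈ S, ‖L q.1 (1 / 2 + q.2 * I)‖ ^ p ≤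
        C * (|(discr K : ℝ)| * Ideal.absNorm l * Ideal.absNorm k.radical) ^ B *
          (Ideal.absNorm k * ∏ v, T v ^ v.mult) ^ ((p - 2) / 5 + ε) *
          (R * (Ideal.absNorm κ * ∏ v, H v ^ v.mult) +
            (R : ℝ) ^ (1 / 2 : ℝ) * (Ideal.absNorm k * ∏ v, T v ^ v.mult) /
              (Ideal.absNorm κ * ∏ v, H v ^ v.mult) ^ 2) ^ ((12 - p) / 10)

end Pool.Agent.H23.DM
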