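import Pool.Agent.H23.DM.Defs
import Pool.Agent.H27.TM.TargetsA

/-!
# The twelfth moment in the whole conductor: targets at a fixed position
-/

set_option autoImplicit false

open NumberField NumberField.InfinitePlace NumberField.Units
  NumberField.Units.dirichletUnitTheorem MeasureTheory Set Filter Complex
open scoped nonZeroDivisors ENNReal

namespace Pool.Agent.H23.DM

open Pool.Agent.H25.HK Pool.Agent.H23.LB Pool.Agent.H23.LC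
open Pool.Agent.H28.RC (Rep ft idl)
open Pool.Agent.H29.DW (dg Rl lf wv Pos Wg cpar Ci om zs rv Wt PrG)
open Pool.Agent.H29.TC (Gn LC cq dvs AC MC)
open Pool.Agent.H31.SW (EE itg FF HD DB DS dif Pf GG G2 DD PP pF dK pz ps Tf WG)
open Pool.Agent.H31.SX (ND RK Gcd LK)
open Pool.Agent.H27.TM (Sh S4 lo Maj G3 kp El Cr Am mf Dl mc Ep Cls Spc bt th1)

/-- the properties of the family of the ideals `κ(θ)` -/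
def Kap {K : Type} [Field K] [NumberField K] (k : Ideal (𝓞 K)) (κ : ℝ → Ideal (𝓞 K)) : Prop :=
  ∀ θ : ℝ, 0 ≤ θ → θ ≤ 1 → k ≤ κ θ ∧ κ θ ≤ k.radical ∧ Nf K k ^ θ ≤ Nf K (κ θ) ∧
    Nf K (κ θ) ≤ Nf K k ^ θ * Nf K k.radical ∧
    (1 / 6 ≤ θ → κ θ ^ 6 ≤ k ∧ κ θ ≤ κ (1 / 6)) ∧
    (θ ≤ 1 / 3 → Nf K k ^ (3 * θ) ≤ Nf K (κ θ ^ 3 ⊔ k))

/-! ### Lattice points -/

/-- (LN) the lattices. -/
def D_LN : Prop :=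
  ∀ (K : Type) [Field K] [NumberField K] (e r k' : Ideal (𝓞 K)), e ≠ ⊥ → r ≠ ⊥ → k' ≠ ⊥ →
    Mz K e ≠ 0 ∧ Nz K r k' e ≠ 0 ∧
    (∀ y : InfinitePlace K → ℝ, DD (Mz K e) y =
      Real.exp (-(∑ v, (v.mult : ℝ) * y v) / 2) * (Nf K e / 2 ^ Module.finrank ℚ K)) ∧
    (∀ y : InfinitePlace K → ℝ, DD (Nz K r k' e) y =
      Real.exp (-(∑ v, (v.mult : ℝ) * y v) / 2) *
        (2 ^ Module.finrank ℚ K * dK K * (Nf K (r ⊓ k') / Nf K e))) ∧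
    Nf K k' ≤ Nf K (r ⊓ k') ∧ Nf K (r ⊓ k') ≤ Nf K r * Nf K k' ∧
    (∀ (j : Ideal (𝓞 K)) (M : FI K) (y : InfinitePlace K → ℝ), j ≠ ⊥ → M ≠ 0 →
      (j : FI K) * M ≠ 0 ∧ DD ((j : FI K) * M) y = DD M y / Nf K j) ∧
    ∀ (l : Ideal (𝓞 K)) (M : FI K) (δ ξ : K), l ≠ ⊥ → M ≠ 0 →
      2 * δ ∈ ((l * e : Ideal (𝓞 K)) : FI K) * M →
      ξ ∈ du K (((l * (r ⊓ k') : Ideal (𝓞 K)) : FI K) * M) → δ * ξ ∈ Nz K r k' e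

/-- (DV) the divisor bound. -/
def D_DV : Prop :=
  ∀ n : ℕ, 0 < n → ∀ ε : ℝ, 0 < ε → ∃ C : ℝ, 1 ≤ C ∧ ∀ (K : Type) [Field K] [NumberField K],
    Module.finrank ℚ K = n → ∀ (l k e k' : Ideal (𝓞 K)) (M : FI K) (y : InfinitePlace K → ℝ)
    (ω : InfinitePlace K → ℂ) (α : InfinitePlace K → ℝ) (A : Set K), l ≠ ⊥ → k ≠ ⊥ → M ≠ 0 →
    Pos ω → (∀ v, 0 < α v) → k = e * k' →
    (∀ δ ∈ A, 2 * δ ∈ ((l * e : Ideal (𝓞 K)) : FI K) * M ∧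
      ∀ v, α v ≤ ‖wv v δ y ω‖ ∧ ‖wv v δ y ω‖ < 2 * α v) →
    A.Finite ∧ ∀ ν : K, 0 ≤ de A (du K (((l * (k.radical ⊓ k') : Ideal (𝓞 K)) : FI K) * M)) ν ∧
      de A (du K (((l * (k.radical ⊓ k') : Ideal (𝓞 K)) : FI K) * M)) ν ≤
        C * (DD M y / (Nf K l * Nf K e) * PP α) ∧
      (ν ∈ Nz K k.radical k' e → ν ≠ 0 →
        de A (du K (((l * (k.radical ⊓ k') : Ideal (𝓞 K)) : FI K) * M)) ν ≤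
          C * (dK K * Nf K k ^ n * ∏ v : InfinitePlace K, ‖v.embedding ν‖ ^ v.mult) ^ ε)

/-- (ZT) the points of a lattice. -/
def D_ZT : Prop :=
  ∀ (n N : ℕ), 0 < n → 5 ≤ N → ∃ C : ℝ, 0 ≤ C ∧ ∀ (K : Type) [Field K] [NumberField K],
    Module.finrank ℚ K = n → ∀ (L : FI K) (α τ : InfinitePlace K → ℝ) (W : ℝ), L ≠ 0 →
    (∀ v, 0 < α v) → 1 ≤ W →
    {ν : K | ν ∈ L ∧ ν ≠ 0 ∧ ∀ v, ‖mc α ν v‖ ≤ W * bt α τ v}.Finite ∧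
    ({ν : K | ν ∈ L ∧ ν ≠ 0 ∧ ∀ v, ‖mc α ν v‖ ≤ W * bt α τ v}.ncard : ℝ) ≤
      C * (DD L 0 * (PP α * PP (bt α τ)) * W ^ n) ∧
    Summable (fun ν : {ν : K // ν ∈ L} => ∏ v : InfinitePlace K,
      (1 + ‖mc α ν.1 v‖ / bt α τ v) ^ (-(N : ℝ))) ∧
    ∑' ν : {ν : K // ν ∈ L ∧ ¬ ∀ v, ‖mc α ν v‖ ≤ W * bt α τ v}, ∏ v : InfinitePlace K,
      (1 + ‖mc α ν.1 v‖ / bt α τ v) ^ (-(N : ℝ)) ≤
        C * (W ^ (-((N : ℝ) - 5)) * (1 + DD L 0 * (PP α * PP (bt α τ))))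

/-! ### Spaced frequencies -/

open scoped Classical in
/-- (SM) sums over spaced frequencies. -/
def D_SM : Prop :=
  ∀ n : ℕ, 0 < n → ∃ C : ℝ, 1 ≤ C ∧ ∀ (K : Type) [Field K] [NumberField K],
    Module.finrank ℚ K = n → ∀ (k κ b κ₃ b₃ e k' : Ideal (𝓞 K)) (ι : Type) (I : Finset ι)
    (γ : ι → 𝓞 K) (c : ι → InfinitePlace K → ℂ) (G α : InfinitePlace K → ℝ) (D : ℝ), k ≠ ⊥ →
    Ch k κ b κ₃ b₃ → k = e * k' → e ≤ κ → (∀ j ∈ I, ∀ v, Rl (rv v) (c j v)) →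
    (∀ v, 0 < α v ∧ 0 < G v ∧ α v * G v ≤ 1) → SpG I b γ c G D → ∀ i ∈ I,
    ∑ j ∈ I, (if ∀ t ∈ k.radical, (γ i - γ j) * t ∈ k' then
      ∏ v : InfinitePlace K, th1 α (c i) (c j) v ^ (-(4 : ℝ)) else 0) ≤
        C * (D * (Nf K k.radical * (Nf K e / Nf K κ))) / (PP α * PP G)

/-- (RP) representatives. -/
def D_RP : Prop :=
  ∀ (n : ℕ) (K : Type) [Field K] [NumberField K], Module.finrank ℚ K = n →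
    ∀ (ι : Type) (J : Finset ι) (γ : ι → 𝓞 K) (b : Ideal (𝓞 K))
    (c : ι → InfinitePlace K → ℂ) (G : InfinitePlace K → ℝ),
    (∀ v, 0 < G v) → (∀ j ∈ J, ∀ v, Rl (rv v) (c j v)) →
    ∃ (I : Finset ι) (ρ : ι → ι), I ⊆ J ∧
      (∀ j ∈ J, ρ j ∈ I ∧ γ j - γ (ρ j) ∈ b ∧ ∀ v, ‖c j v - c (ρ j) v‖ ≤ 2 * G v) ∧
      SpG I b γ c G (9 ^ n)

/-- (CL) cells. -/
def D_CL : Prop :=
  ∀ n : ℕ, 0 < n → ∃ C : ℝ, 1 ≤ C ∧ ∀ (K : Type) [Field K] [NumberField K],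
    Module.finrank ℚ K = n → ∀ (ι : Type) (J : Finset ι) (γ : ι → 𝓞 K) (b : Ideal (𝓞 K))
    (c : ι → InfinitePlace K → ℂ) (τ H : InfinitePlace K → ℝ), b ≠ ⊥ →
    (∀ v, 0 < H v ∧ H v ≤ τ v) → (∀ j ∈ J, ∀ v, Rl (rv v) (c j v) ∧ ‖c j v‖ ≤ 2 * τ v) →
    ∃ bl : ι → ℕ, ((J.image bl).card : ℝ) ≤ C * (Nf K b * (PP τ / PP H)) ∧
      ∀ i ∈ J, ∀ j ∈ J, bl i = bl j → γ i - γ j ∈ b ∧ ∀ v, ‖c i v - c j v‖ ≤ 2 * H v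

/-- (TC) the trivial bound for the number of the frequencies. -/
def D_TC : Prop :=
  ∀ n : ℕ, 0 < n → ∃ C : ℝ, 1 ≤ C ∧ ∀ (K : Type) [Field K] [NumberField K],
    Module.finrank ℚ K = n → ∀ (k : Ideal (𝓞 K)) (ι : Type) (J : Finset ι)
    (η : ι → 𝓞 K ⧸ k → ℂ) (c : ι → InfinitePlace K → ℂ) (τ : InfinitePlace K → ℝ) (D : ℝ),
    k ≠ ⊥ → (∀ v, 1 ≤ τ v) → (∀ j ∈ J, MC (η j)) → (∀ j ∈ J, Cls τ (c j)) → SpE J η c D →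
    (J.card : ℝ) ≤ C * (D * (Nf K k * PP τ))

/-! ### The reduction to the dual sums -/

/-- (MQ) the mean square over the frequencies in a box and a coset. -/
def D_MQ : Prop :=
  ∀ (n : ℕ) (p q : Bool → ℂ → ℂ) (Φ : Bool → ℝ → ℂ → ℝ) (Ψ : Bool → ℂ → ℂ) (C₀ : ℝ), 0 < n →
    Pf p → Pf q → (∀ (r : Bool) (c w : ℂ), GG (p r) c w = ∫ u in Sh, GG (q r) (c + u) w) →
    0 < C₀ → Maj Φ Ψ C₀ → ∃ C : ℝ, 0 ≤ C ∧ ∀ (K : Type) [Field K] [NumberField K],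
    Module.finrank ℚ K = n → ∀ (l k κ : Ideal (𝓞 K)) (M : FI K) (x₀ : K)
    (y : InfinitePlace K → ℝ) (ω : InfinitePlace K → ℂ) (ρ : K) (ι : Type) (J : Finset ι)
    (η : ι → 𝓞 K ⧸ k → ℂ) (η₀ : 𝓞 K ⧸ k → ℂ) (c : ι → InfinitePlace K → ℂ)
    (c₀ : InfinitePlace K → ℂ) (G : InfinitePlace K → ℝ) (D : ℝ), FP l k M x₀ → Pos ω →
    k ≤ κ → κ ≤ k.radical → (∀ v, 1 ≤ G v) → ρ ∈ M → MC η₀ →
    (∀ j ∈ J, MC (η j) ∧ ∀ t ∈ κ, η j (Ideal.Quotient.mk k (1 + t)) =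
      η₀ (Ideal.Quotient.mk k (1 + t))) →
    (∀ v, Rl (rv v) (c₀ v)) → (∀ j ∈ J, ∀ v, Rl (rv v) (c j v) ∧ ‖c j v - c₀ v‖ ≤ 2 * G v) →
    SpE J η c D →
    ∑ j ∈ J, ‖SQ p (((l * k.radical : Ideal (𝓞 K)) : FI K) * M) y ω ρ (cq k (η j) M x₀)
      (c j)‖ ^ 2 ≤ C * (D * (Nf K κ * PP G) *
        ‖MP q Ψ (((l * k.radical : Ideal (𝓞 K)) : FI K) * M) ((κ : FI K) * M) y ω ρ
          (cq k η₀ M x₀) G c₀‖)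

/-- (DY) the dyadic decomposition. -/
def D_DY : Prop :=
  ∀ (n : ℕ) (q Ψ : Bool → ℂ → ℂ), 0 < n → Pf q → Pf Ψ → ∃ C : ℝ, 0 ≤ C ∧ ∀ (K : Type) [Field K]
    [NumberField K], Module.finrank ℚ K = n → ∀ (l k κ : Ideal (𝓞 K)) (M : FI K)
    (y : InfinitePlace K → ℝ) (ω : InfinitePlace K → ℂ) (ρ : K) (G : InfinitePlace K → ℝ),
    l ≠ ⊥ → k ≠ ⊥ → l ⊔ k = ⊤ → M ≠ 0 → Pos ω → k ≤ κ → κ ≤ k.radical → (∀ v, 1 ≤ G v) →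
    ρ ∈ M → ∃ A : Finset (InfinitePlace K → ℝ),
    (A.card : ℝ) ≤ C * (1 + Real.log (1 + DD M y / Nf K l)) ^ n ∧
    (∀ α ∈ A, ∀ v, 0 < α v ∧ α v ≤ 1 / 10000 ∧ G v * α v ≤ 1 / 10000) ∧
    ∀ (qq : K → ℂ) (c : InfinitePlace K → ℂ), (∀ x ∈ M, ‖qq x‖ ≤ 1) →
      ‖MP q Ψ (((l * k.radical : Ideal (𝓞 K)) : FI K) * M) ((κ : FI K) * M) y ω ρ qq G c‖ ≤
        C * (1 + DD M y / Nf K l) + ∑ α ∈ A,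
          ‖OQ q Ψ (Dl (((l * κ : Ideal (𝓞 K)) : FI K) * M) y ω α)
            (((l * k.radical : Ideal (𝓞 K)) : FI K) * M) y ω ρ qq G c‖

/-- (PA) Poisson summation and the separation of the variables. -/
def D_PA : Prop :=
  ∀ (n : ℕ) (q Ψ : Bool → ℂ → ℂ) (N : ℕ), 0 < n → Pf q → Pf Ψ → n + 5 ≤ N →
    ∃ C₁ : ℝ, 0 ≤ C₁ ∧ ∀ (K : Type) [Field K] [NumberField K],
    Module.finrank ℚ K = n → ∀ (l k e k' : Ideal (𝓞 K)) (M : FI K) (y : InfinitePlace K → ℝ)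
    (ω : InfinitePlace K → ℂ) (ρ : K) (G α : InfinitePlace K → ℝ) (A : Set K) (ι : Type)
    (I : Finset ι) (qq E : ι → K → ℂ), l ≠ ⊥ → l ≤ Ideal.span {(2 : 𝓞 K)} → k ≠ ⊥ → M ≠ 0 →
    Pos ω → ρ ∈ M → (∀ v, 1 ≤ G v ∧ 0 < α v ∧ α v ≤ 1 / 10000 ∧ G v * α v ≤ 1 / 10000) →
    FT l k k.radical e k' M ρ A I qq E →
    (∀ i ∈ I, ∀ ν ∈ Nz K k.radical k' e, ‖E i ν‖ ^ 2 ≤ Nf K k.radical) →
    (∀ δ ∈ A, ∀ v, α v ≤ ‖wv v δ y ω‖ ∧ ‖wv v δ y ω‖ < 2 * α v) →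
    ∃ (Q : (InfinitePlace K → ℂ) → InfinitePlace K → ℂ → ℂ)
      (bb : (InfinitePlace K → ℂ) → K → ℂ), (∀ s v, Am N C₁ (rv v) (Q s v)) ∧
    (∀ s ν, ‖bb s ν‖ ≤ de A (du K (((l * (k.radical ⊓ k') : Ideal (𝓞 K)) : FI K) * M)) ν) ∧
    ∀ i ∈ I, ∀ c : InfinitePlace K → ℂ, (∀ v, Rl (rv v) (c v)) →
    IntegrableOn (fun s => ∑' ν : {ν : K // ν ∈ Nz K k.radical k' e},
      bb s ν * (E i ν * Ep α (Q s) c ν)) (Set.pi univ fun _ => S4) ∧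
    OQ q Ψ A (((l * k.radical : Ideal (𝓞 K)) : FI K) * M) y ω ρ (qq i) G c =
      ((DD M y / (Nf K l * Nf K (k.radical ⊓ k') * Real.sqrt (dK K)) *
        Real.sqrt (Nf K k') : ℝ) : ℂ) *
      ∫ s in Set.pi univ fun _ => S4, ∑' ν : {ν : K // ν ∈ Nz K k.radical k' e},
        bb s ν * (E i ν * Ep α (Q s) c ν)

/-- (P1) Poisson summation. -/
def D_P1 : Prop :=
  ∀ (n : ℕ) (q Ψ : Bool → ℂ → ℂ) (N : ℕ), 0 < n → Pf q → Pf Ψ → n + 5 ≤ N →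
    ∃ C₁ C : ℝ, 0 ≤ C₁ ∧ 0 ≤ C ∧ ∀ (K : Type) [Field K] [NumberField K],
    Module.finrank ℚ K = n → ∀ (l k e k' : Ideal (𝓞 K)) (M : FI K) (y : InfinitePlace K → ℝ)
    (ω : InfinitePlace K → ℂ) (ρ : K) (G α : InfinitePlace K → ℝ) (A : Set K) (ι : Type)
    (I : Finset ι) (qq E : ι → K → ℂ) (c : ι → InfinitePlace K → ℂ) (B : ℝ), l ≠ ⊥ →
    l ≤ Ideal.span {(2 : 𝓞 K)} → k ≠ ⊥ → M ≠ 0 → Pos ω → ρ ∈ M →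
    (∀ v, 1 ≤ G v ∧ 0 < α v ∧ α v ≤ 1 / 10000 ∧ G v * α v ≤ 1 / 10000) →
    FT l k k.radical e k' M ρ A I qq E →
    (∀ i ∈ I, ∀ ν ∈ Nz K k.radical k' e, ‖E i ν‖ ^ 2 ≤ Nf K k.radical) →
    (∀ δ ∈ A, ∀ v, α v ≤ ‖wv v δ y ω‖ ∧ ‖wv v δ y ω‖ < 2 * α v) →
    (∀ i ∈ I, ∀ v, Rl (rv v) (c i v)) →
    (∀ (Q : InfinitePlace K → ℂ → ℂ) (bb : K → ℂ), (∀ v, Am N C₁ (rv v) (Q v)) →
      (∀ ν, ‖bb ν‖ ≤ de A (du K (((l * (k.radical ⊓ k') : Ideal (𝓞 K)) : FI K) * M)) ν) →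
      ∑ i ∈ I, ‖∑' ν : {ν : K // ν ∈ Nz K k.radical k' e},
        bb ν * (E i ν * Ep α Q (c i) ν)‖ ≤ B) →
    ∑ i ∈ I, ‖OQ q Ψ A (((l * k.radical : Ideal (𝓞 K)) : FI K) * M) y ω ρ (qq i) G (c i)‖ ≤
      C * (DD M y / Nf K l * (B / Real.sqrt (Nf K k')))

/-! ### The dual sums -/

open scoped Classical in
/-- (PS) the sums over the dual lattice. -/
def D_PS : Prop :=
  ∀ (n N : ℕ) (C₁ : ℝ), 0 < n → n + 5 ≤ N → 0 ≤ C₁ → ∃ C : ℝ, 0 ≤ C ∧ ∀ (K : Type) [Field K]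
    [NumberField K], Module.finrank ℚ K = n → ∀ (r e k' : Ideal (𝓞 K)) (ι : Type)
    (I : Finset ι) (γ : ι → 𝓞 K) (E : ι → K → ℂ) (α τ : InfinitePlace K → ℝ)
    (c c' : InfinitePlace K → ℂ) (Q : InfinitePlace K → ℂ → ℂ), r ≠ ⊥ → e ≠ ⊥ → k' ≠ ⊥ →
    CO r e k' I γ E → (∀ v, 0 < α v ∧ α v ≤ 1 / 10000) → Cls τ c → Cls τ c' →
    (∀ v, Am (N + 3) C₁ (rv v) (Q v)) → ∀ i ∈ I, ∀ j ∈ I,
    ‖∑' ν : {ν : K // ν ∈ Nz K r k' e}, E i ν * Ep α Q c ν *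
      (starRingEnd ℂ) (E j ν * Ep α Q c' ν)‖ ≤
      C * (Real.sqrt (dK K) * Nf K r ^ 2 *
        ((if ∀ t ∈ r, (γ i - γ j) * t ∈ k' then PP α * (Nf K k' / Nf K e) *
          ∏ v : InfinitePlace K, th1 α c c' v ^ (-(N : ℝ)) else 0) +
        (Nf K k' / Nf K (k' ⊔ Ideal.span {γ i - γ j})) ^ (1 / 2 : ℝ) *
          PP (th1 α c c') ^ (1 / 2 : ℝ) / PP (bt α τ)))

/-- (P2) the dual sums. -/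
def D_P2 : Prop :=
  ∀ (n : ℕ) (ε : ℝ), 0 < n → 0 < ε → ∃ N : ℕ, n + 5 ≤ N ∧ ∀ C₁ : ℝ, 0 ≤ C₁ → ∃ C : ℝ, 0 ≤ C ∧
    ∀ (K : Type) [Field K] [NumberField K], Module.finrank ℚ K = n →
    ∀ (l k κ b κ₃ b₃ e k' : Ideal (𝓞 K)) (M : FI K) (y : InfinitePlace K → ℝ)
    (ω : InfinitePlace K → ℂ) (G α τ : InfinitePlace K → ℝ) (A : Set K) (ι : Type)
    (I : Finset ι) (γ : ι → 𝓞 K) (c : ι → InfinitePlace K → ℂ) (E : ι → K → ℂ) (D : ℝ)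
    (Q : InfinitePlace K → ℂ → ℂ) (bb : K → ℂ), l ≠ ⊥ → k ≠ ⊥ → M ≠ 0 → Pos ω →
    Ch k κ b κ₃ b₃ → k = e * k' → e ≤ κ → CO k.radical e k' I γ E →
    (∀ δ ∈ A, 2 * δ ∈ ((l * e : Ideal (𝓞 K)) : FI K) * M ∧
      ∀ v, α v ≤ ‖wv v δ y ω‖ ∧ ‖wv v δ y ω‖ < 2 * α v) →
    (∀ v, 1 ≤ G v ∧ 0 < α v ∧ α v ≤ 1 / 10000 ∧ G v * α v ≤ 1 / 10000 ∧ G v ^ 3 ≤ τ v) →
    (∀ i ∈ I, Cls τ (c i)) →
    (∀ i ∈ I, ∀ j ∈ I, γ i - γ j ∈ b₃ ∧ ∀ v, ‖c i v - c j v‖ ≤ 2 * G v ^ 3) →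
    SpG I b γ c G D → 1 ≤ D → DD M y / Nf K l ≤ Nf K k * PP τ →
    (∀ v, Am N C₁ (rv v) (Q v)) →
    (∀ ν, ‖bb ν‖ ≤ de A (du K (((l * (k.radical ⊓ k') : Ideal (𝓞 K)) : FI K) * M)) ν) →
    ∑ i ∈ I, ‖∑' ν : {ν : K // ν ∈ Nz K k.radical k' e}, bb ν * (E i ν * Ep α Q (c i) ν)‖ ≤
      C * (D * dK K ^ 2 * Nf K k.radical ^ 2 * (Nf K k * PP τ) ^ ε *
        (Real.sqrt (Nf K k') * ((I.card : ℝ) ^ (1 / 2 : ℝ) *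
          ((Nf K k * PP τ) ^ (1 / 2 : ℝ) * (Nf K κ * PP G) ^ (-(3 / 2) : ℝ)) + I.card)))

/-- (OC) the sums over the differences of a given class. -/
def D_OC : Prop :=
  ∀ (n : ℕ) (ε : ℝ) (q Ψ : Bool → ℂ → ℂ), 0 < n → 0 < ε → Pf q → Pf Ψ → ∃ C : ℝ, 0 ≤ C ∧
    ∀ (K : Type) [Field K] [NumberField K], Module.finrank ℚ K = n →
    ∀ (l k κ b κ₃ b₃ e k' : Ideal (𝓞 K)) (M : FI K) (y : InfinitePlace K → ℝ)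
    (ω : InfinitePlace K → ℂ) (ρ : K) (G α τ : InfinitePlace K → ℝ) (A : Set K) (ι : Type)
    (I : Finset ι) (γ : ι → 𝓞 K) (c : ι → InfinitePlace K → ℂ) (qq E : ι → K → ℂ) (D : ℝ),
    l ≠ ⊥ → l ≤ Ideal.span {(2 : 𝓞 K)} → k ≠ ⊥ → M ≠ 0 → Pos ω → ρ ∈ M →
    Ch k κ b κ₃ b₃ → e ≤ κ → FT l k k.radical e k' M ρ A I qq E →
    CO k.radical e k' I γ E → (∀ δ ∈ A, ∀ v, α v ≤ ‖wv v δ y ω‖ ∧ ‖wv v δ y ω‖ < 2 * α v) →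
    (∀ v, 1 ≤ G v ∧ 0 < α v ∧ α v ≤ 1 / 10000 ∧ G v * α v ≤ 1 / 10000 ∧ G v ^ 3 ≤ τ v) →
    (∀ i ∈ I, Cls τ (c i)) →
    (∀ i ∈ I, ∀ j ∈ I, γ i - γ j ∈ b₃ ∧ ∀ v, ‖c i v - c j v‖ ≤ 2 * G v ^ 3) →
    SpG I b γ c G D → 1 ≤ D → DD M y / Nf K l ≤ Nf K k * PP τ →
    ∑ i ∈ I, ‖OQ q Ψ A (((l * k.radical : Ideal (𝓞 K)) : FI K) * M) y ω ρ (qq i) G (c i)‖ ≤
      C * (DD M y / Nf K l * (D * dK K ^ 2 * Nf K k.radical ^ 2 * (Nf K k * PP τ) ^ ε *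
        ((I.card : ℝ) ^ (1 / 2 : ℝ) *
          ((Nf K k * PP τ) ^ (1 / 2 : ℝ) * (Nf K κ * PP G) ^ (-(3 / 2) : ℝ)) + I.card)))

/-! ### Large values and the twelfth moment at a fixed position -/

/-- (BL) large values in a block. -/
def D_BL : Prop :=
  ∀ (n : ℕ) (ε : ℝ) (p : Bool → ℂ → ℂ), 0 < n → 0 < ε → Pf p → ∃ C : ℝ, 1 ≤ C ∧
    ∀ (K : Type) [Field K] [NumberField K], Module.finrank ℚ K = n →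
    ∀ (l k κ b κ₃ b₃ : Ideal (𝓞 K)) (θ : 𝓞 K ⧸ k → ℂ) (M : FI K) (x₀ : K)
    (y : InfinitePlace K → ℝ) (ω : InfinitePlace K → ℂ) (ρ : K) (G τ : InfinitePlace K → ℝ)
    (ι : Type) (J : Finset ι) (η : ι → 𝓞 K ⧸ k → ℂ) (γ : ι → 𝓞 K)
    (c : ι → InfinitePlace K → ℂ) (D V : ℝ), FP l k M x₀ → Pos ω → ρ ∈ M →
    Ch k κ b κ₃ b₃ → κ ^ 6 ≤ k → FM k κ θ J η γ → (∀ v, 1 ≤ G v ∧ G v ^ 3 ≤ τ v) →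
    (∀ j ∈ J, Cls τ (c j)) →
    (∀ i ∈ J, ∀ j ∈ J, γ i - γ j ∈ b₃ ∧ ∀ v, ‖c i v - c j v‖ ≤ 2 * G v ^ 3) →
    SpE J η c D → 1 ≤ D → DD M y / Nf K l ≤ Nf K k * PP τ → 0 < V →
    C * (D * dK K ^ 2 * Nf K k.radical ^ 3 * (Nf K k * PP τ) ^ ε * (Nf K κ * PP G)) ≤ V ^ 2 →
    (∀ j ∈ J, V ^ 2 * (1 + DD M y / Nf K l) ≤
      ‖SQ p (((l * k.radical : Ideal (𝓞 K)) : FI K) * M) y ω ρ (cq k (η j) M x₀)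
        (c j)‖ ^ 2) →
    (J.card : ℝ) ≤ C * ((D * dK K ^ 2 * Nf K k.radical ^ 3 * (Nf K k * PP τ) ^ ε) ^ 2 *
      (Nf K k * PP τ / (V ^ 4 * (Nf K κ * PP G))))

/-- (KC) large values in a class. -/
def D_KC : Prop :=
  ∀ (n : ℕ) (ε : ℝ) (p : Bool → ℂ → ℂ), 0 < n → 0 < ε → Pf p → ∃ C : ℝ, 1 ≤ C ∧
    ∀ (K : Type) [Field K] [NumberField K], Module.finrank ℚ K = n →
    ∀ (l k : Ideal (𝓞 K)) (κ : ℝ → Ideal (𝓞 K)) (θ : 𝓞 K ⧸ k → ℂ) (M : FI K) (x₀ : K)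
    (y : InfinitePlace K → ℝ) (ω : InfinitePlace K → ℂ) (ρ : K) (τ : InfinitePlace K → ℝ)
    (ι : Type) (J : Finset ι) (η : ι → 𝓞 K ⧸ k → ℂ) (γ : ι → 𝓞 K)
    (c : ι → InfinitePlace K → ℂ) (D V : ℝ), FP l k M x₀ → Pos ω → ρ ∈ M → Kap k κ →
    FM k (κ (1 / 6)) θ J η γ → (∀ j ∈ J, Cls τ (c j)) → SpE J η c D → 1 ≤ D →
    DD M y / Nf K l ≤ Nf K k * PP τ → 1 ≤ V → V ^ 6 ≤ Nf K k * PP τ →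
    (∀ j ∈ J, V ^ 2 * (1 + DD M y / Nf K l) ≤
      ‖SQ p (((l * k.radical : Ideal (𝓞 K)) : FI K) * M) y ω ρ (cq k (η j) M x₀)
        (c j)‖ ^ 2) →
    (J.card : ℝ) ≤ C * ((D * dK K ^ 2 * Nf K k.radical ^ 4 * (Nf K k * PP τ) ^ ε) ^ 7 *
      ((Nf K k * PP τ) ^ 2 / V ^ 12))

/-- (KE) the twelfth moment of a class. -/
def D_KE : Prop :=
  ∀ (n : ℕ) (ε : ℝ) (p : Bool → ℂ → ℂ), 0 < n → 0 < ε → Pf p → ∃ C : ℝ, 0 ≤ C ∧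
    ∀ (K : Type) [Field K] [NumberField K], Module.finrank ℚ K = n →
    ∀ (l k : Ideal (𝓞 K)) (κ : ℝ → Ideal (𝓞 K)) (θ : 𝓞 K ⧸ k → ℂ) (M : FI K) (x₀ : K)
    (y : InfinitePlace K → ℝ) (ω : InfinitePlace K → ℂ) (ρ : K) (τ : InfinitePlace K → ℝ)
    (ι : Type) (J : Finset ι) (η : ι → 𝓞 K ⧸ k → ℂ) (γ : ι → 𝓞 K)
    (c : ι → InfinitePlace K → ℂ) (D : ℝ), FP l k M x₀ → Pos ω → ρ ∈ M → Kap k κ →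
    FM k (κ (1 / 6)) θ J η γ → (∀ v, 1 ≤ τ v) → (∀ j ∈ J, Cls τ (c j)) → SpE J η c D → 1 ≤ D →
    ∑ j ∈ J, ‖SQ p (((l * k.radical : Ideal (𝓞 K)) : FI K) * M) y ω ρ (cq k (η j) M x₀)
        (c j)‖ ^ 12 ≤
      C * ((D * dK K * Nf K k.radical) ^ 70 * (Nf K k * PP τ) ^ (2 + ε) *
        ((1 + DD M y / Nf K l) ^ 6 *
          (1 + DD M y / Nf K l / (Nf K k * PP τ) ^ (1 / 2 : ℝ)) ^ 11))

/-- (KF) the twelfth moment of a wider class. -/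
def D_KF : Prop :=
  ∀ n : ℕ, 0 < n → ∃ B : ℝ, 0 ≤ B ∧ ∀ (ε : ℝ) (p : Bool → ℂ → ℂ), 0 < ε → ε ≤ 1 → Pf p →
    ∃ C : ℝ, 0 ≤ C ∧ ∀ (K : Type) [Field K] [NumberField K], Module.finrank ℚ K = n →
    ∀ (l k : Ideal (𝓞 K)) (M : FI K) (x₀ : K) (y : InfinitePlace K → ℝ)
    (ω : InfinitePlace K → ℂ) (ρ : K) (τ : InfinitePlace K → ℝ) (ι : Type) (J : Finset ι)
    (η : ι → 𝓞 K ⧸ k → ℂ) (c : ι → InfinitePlace K → ℂ) (D Λ : ℝ), FP l k M x₀ → Pos ω →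
    ρ ∈ M → (∀ j ∈ J, LC k (η j)) → 1 ≤ Λ → (∀ v, 1 ≤ τ v) →
    (∀ j ∈ J, ∀ v, Rl (rv v) (c j v) ∧ τ v ≤ Λ * (1 + ‖c j v‖) ∧ 1 + ‖c j v‖ ≤ Λ * τ v) →
    SpE J η c D → 1 ≤ D →
    ∑ j ∈ J, ‖SQ p (((l * k.radical : Ideal (𝓞 K)) : FI K) * M) y ω ρ (cq k (η j) M x₀)
        (c j)‖ ^ 12 ≤
      C * ((D * dK K * Nf K k.radical * Λ) ^ B * (Nf K k * PP τ) ^ (2 + ε) *
        ((1 + DD M y / Nf K l) ^ 6 *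
          (1 + DD M y / Nf K l / (Nf K k * PP τ) ^ (1 / 2 : ℝ)) ^ 11))

end Pool.Agent.H23.DM
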