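import Pool.Agent.H23.DM.Defs
import Pool.Agent.H27.TM.TargetsA

/-!
# The twelfth moment in the whole conductor: targets about ideals and characters
-/

set_option autoImplicit false

open NumberField NumberField.InfinitePlace NumberField.Units
  NumberField.Units.dirichletUnitTheorem MeasureTheory Set Filter Complex
open scoped nonZeroDivisors ENNReal

namespace Pool.Agent.H23.DM

open Pool.Agent.H25.HK Pool.Agent.H23.LB Pool.Agent.H23.LC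
open Pool.Agent.H28.RC (Rep ft idl)
open Pool.Agent.H29.DW (dg Rl lf wv Pos Wg cpar Ci om zs rv Wt PrG)
open Pool.Agent.H29.TC (Gn LC cq dvs AC MC)
open Pool.Agent.H31.SX (ND RK Gcd LK)

/-! ### Ideals -/

/-- (KP) the ideals `κ(θ)` between `k ^ θ` and `k ^ θ rad k`. -/
def D_KP : Prop :=
  ∀ (K : Type) [Field K] [NumberField K] (k : Ideal (𝓞 K)), k ≠ ⊥ →
    ∃ κ : ℝ → Ideal (𝓞 K), ∀ θ : ℝ, 0 ≤ θ → θ ≤ 1 →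
      k ≤ κ θ ∧ κ θ ≤ k.radical ∧ Nf K k ^ θ ≤ Nf K (κ θ) ∧
      Nf K (κ θ) ≤ Nf K k ^ θ * Nf K k.radical ∧
      (1 / 6 ≤ θ → κ θ ^ 6 ≤ k ∧ κ θ ≤ κ (1 / 6)) ∧
      (θ ≤ 1 / 3 → Nf K k ^ (3 * θ) ≤ Nf K (κ θ ^ 3 ⊔ k))

/-- (CH) the ideals of a chain. -/
def D_CH : Prop :=
  ∀ (K : Type) [Field K] [NumberField K] (k κ : Ideal (𝓞 K)), k ≠ ⊥ → k ≤ κ → κ ≤ k.radical →
    ∃ b κ₃ b₃ : Ideal (𝓞 K), Ch k κ b κ₃ b₃ ∧ κ ≠ ⊥ ∧ b ≠ ⊥ ∧ κ₃ ≠ ⊥ ∧ b₃ ≠ ⊥ ∧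
      ∀ e k' : Ideal (𝓞 K), k = e * k' → e ≤ κ → b ≤ k' ∧
        Nf K k = Nf K e * Nf K k' ∧ Nf K k = Nf K κ * Nf K b ∧ Nf K k = Nf K κ₃ * Nf K b₃ ∧
        (∀ g : 𝓞 K, g ∈ b₃ → Nf K k' ≤ Nf K e ^ 2 * Nf K (k' ⊔ Ideal.span {g})) ∧
        ∃ c : Ideal (𝓞 K), b ≤ c ∧ (∀ x : 𝓞 K, x ∈ c ↔ ∀ t ∈ k.radical, x * t ∈ k') ∧
          Nf K k' ≤ Nf K c * Nf K k.radical

open scoped Classical in
/-- (EF) additive characters and frequencies. -/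
def D_EF : Prop :=
  ∀ (K : Type) [Field K] [NumberField K] (k : Ideal (𝓞 K)), k ≠ ⊥ →
    Ideal.span {(210 : 𝓞 K)} ⊔ k = ⊤ → (∃ θ : 𝓞 K ⧸ k → ℂ, ND θ) ∧
    ∀ (θ : 𝓞 K ⧸ k → ℂ) (κ : Ideal (𝓞 K)), ND θ → k ≤ κ → κ ^ 6 ≤ k →
      (∀ η : 𝓞 K ⧸ k → ℂ, MC η → ∃ γ : 𝓞 K,
        Fq θ (κ.map (Ideal.Quotient.mk k)) η (Ideal.Quotient.mk k γ)) ∧
      (∀ (η η' : 𝓞 K ⧸ k → ℂ) (γ γ' : 𝓞 K) (κ' b : Ideal (𝓞 K)), MC η → MC η' →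
        Fq θ (κ.map (Ideal.Quotient.mk k)) η (Ideal.Quotient.mk k γ) →
        Fq θ (κ.map (Ideal.Quotient.mk k)) η' (Ideal.Quotient.mk k γ') →
        κ' ≤ κ → k ≤ κ' → k = κ' * b →
        (γ - γ' ∈ b ↔ ∀ j ∈ κ', η (Ideal.Quotient.mk k (1 + j)) =
          η' (Ideal.Quotient.mk k (1 + j)))) ∧
      (∀ (η : 𝓞 K ⧸ k → ℂ) (γ : 𝓞 K) (e k' : Ideal (𝓞 K)), LC k η →
        Fq θ (κ.map (Ideal.Quotient.mk k)) η (Ideal.Quotient.mk k γ) → k = e * k' → e ≤ κ →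
        IsUnit (Ideal.Quotient.mk k' γ)) ∧
      ∀ (η : 𝓞 K ⧸ k → ℂ) (γ π Y : 𝓞 K), MC η →
        Fq θ (κ.map (Ideal.Quotient.mk k)) η (Ideal.Quotient.mk k γ) → π ∈ κ →
        (IsUnit (Ideal.Quotient.mk k Y) → η (Ideal.Quotient.mk k (Y + π)) *
          (starRingEnd ℂ) (η (Ideal.Quotient.mk k (Y - π))) =
            θ (Ideal.Quotient.mk k γ * Ideal.Quotient.mk k π *
              h5 (Ideal.Quotient.mk k π) (Ideal.Quotient.mk k Y))) ∧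
        (¬ IsUnit (Ideal.Quotient.mk k Y) → κ ≤ k.radical →
          η (Ideal.Quotient.mk k (Y + π)) = 0)

/-! ### The transforms of the midpoints -/

/-- the function `η(Y + π) conj η(Y - π)` on the residue class `Y₀` modulo `r` of the lattice
`2 e⁻¹` -/
noncomputable def PhZ {K : Type} [Field K] [NumberField K] (k r e : Ideal (𝓞 K)) (π Y₀ : 𝓞 K)
    (y₂ : K) (η : 𝓞 K ⧸ k → ℂ) (z : K) : ℂ :=
  ci K r (Mz K e) ((Y₀ : K) * y₂) z * cq k (fun Y => η (Y + Ideal.Quotient.mk k π) *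
    (starRingEnd ℂ) (η (Y - Ideal.Quotient.mk k π))) (Mz K e) y₂ z

/-- the generators: `π` generates `e` modulo `k`, and `y₂` is dual to `π` -/
structure PY {K : Type} [Field K] [NumberField K] (k e k' : Ideal (𝓞 K)) (π : 𝓞 K) (y₂ : K) :
    Prop where
  ke : k = e * k'
  span : e = Ideal.span {π} ⊔ k
  gen : Gn k (Mz K e) y₂
  dual : ∃ m ∈ k', (π : K) * y₂ - 1 = (m : K)

/-- (PI) the generators exist. -/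
def D_PI : Prop :=
  ∀ (K : Type) [Field K] [NumberField K] (k e k' : Ideal (𝓞 K)), k ≠ ⊥ → k = e * k' →
    Ideal.span {(2 : 𝓞 K)} ⊔ k = ⊤ → ∃ (π : 𝓞 K) (y₂ : K), PY k e k' π y₂

/-- (SC) the coordinate of a half difference. -/
def D_SC : Prop :=
  ∀ (K : Type) [Field K] [NumberField K] (l k e k' : Ideal (𝓞 K)) (M : FI K) (x₀ δ : K)
    (π : 𝓞 K) (y₂ : K), FP l k M x₀ → PY k e k' π y₂ →
    2 * δ ∈ ((l * e : Ideal (𝓞 K)) : FI K) * M → Gcd k M (2 * δ) e →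
    ∃ s s' : 𝓞 K, s * s' - 1 ∈ k ∧
      δ - ((s * π : 𝓞 K) : K) * x₀ ∈ (k : FI K) * M

/-- (TR) the transport of the sum over the midpoints to the lattice `2 e⁻¹`. -/
def D_TR : Prop :=
  ∀ (K : Type) [Field K] [NumberField K] (l k e k' : Ideal (𝓞 K)) (M : FI K) (x₀ ρ δ : K)
    (π s s' X₀ Y₀ : 𝓞 K) (y₂ : K), FP l k M x₀ → PY k e k' π y₂ → e ≤ k.radical → ρ ∈ M →
    ρ - (X₀ : K) * x₀ ∈ (k : FI K) * M → 2 * δ ∈ ((l * e : Ideal (𝓞 K)) : FI K) * M →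
    s * s' - 1 ∈ k → δ - ((s * π : 𝓞 K) : K) * x₀ ∈ (k : FI K) * M →
    Y₀ - s' * X₀ ∈ k.radical →
    (∀ η : 𝓞 K ⧸ k → ℂ, MC η → ∀ x ∈ M,
      ∀ t ∈ ((l * (k.radical ⊓ k') : Ideal (𝓞 K)) : FI K) * M,
      cm l k.radical M ρ δ (cq k η M x₀) (x + t) = cm l k.radical M ρ δ (cq k η M x₀) x) ∧
    (∀ η : 𝓞 K ⧸ k → ℂ, MC η → ∀ z ∈ Mz K e,
      ∀ t ∈ ((k.radical ⊓ k' : Ideal (𝓞 K)) : FI K) * Mz K e,
      PhZ k k.radical e π Y₀ y₂ η (z + t) = PhZ k k.radical e π Y₀ y₂ η z) ∧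
    ∃ φ : K → ℂ, (∀ ξ, ‖φ ξ‖ ≤ 1) ∧ ∀ η : 𝓞 K ⧸ k → ℂ, MC η → ∀ X X₂ : Finset K,
      Rep K (l * (k.radical ⊓ k')) M X → Rep K (k.radical ⊓ k') (Mz K e) X₂ →
      ∀ ξ ∈ du K (((l * (k.radical ⊓ k') : Ideal (𝓞 K)) : FI K) * M),
        ft K X (cm l k.radical M ρ δ (cq k η M x₀)) ξ =
          φ ξ * ft K X₂ (PhZ k k.radical e π Y₀ y₂ η) (δ * ξ)

open scoped Classical in
/-- (CC) the correlations of the functions `PhZ`. -/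
def D_CC : Prop :=
  ∀ (K : Type) [Field K] [NumberField K] (k κ e k' : Ideal (𝓞 K)) (θ : 𝓞 K ⧸ k → ℂ)
    (ι : Type) (J : Finset ι) (η : ι → 𝓞 K ⧸ k → ℂ) (γ : ι → 𝓞 K) (π Y₀ : 𝓞 K) (y₂ : K)
    (X₂ : Finset K), k ≠ ⊥ → Ideal.span {(210 : 𝓞 K)} ⊔ k = ⊤ → k ≤ κ → κ ≤ k.radical →
    κ ^ 6 ≤ k → FM k κ θ J η γ → PY k e k' π y₂ → e ≤ κ →
    Rep K (k.radical ⊓ k') (Mz K e) X₂ →
    (∀ η₀ : 𝓞 K ⧸ k → ℂ, MC η₀ → ∀ z ∈ Mz K e,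
      ∀ t ∈ ((k.radical ⊓ k' : Ideal (𝓞 K)) : FI K) * Mz K e,
      PhZ k k.radical e π Y₀ y₂ η₀ (z + t) = PhZ k k.radical e π Y₀ y₂ η₀ z) →
    CO k.radical e k' J γ (fun i ν =>
      ft K X₂ (PhZ k k.radical e π Y₀ y₂ (η i)) ν / ((Real.sqrt (Nf K k') : ℝ) : ℂ))

/-- (DC) the decomposition of the half differences. -/
def D_DC : Prop :=
  ∀ (K : Type) [Field K] [NumberField K] (l k κ : Ideal (𝓞 K)) (θ : 𝓞 K ⧸ k → ℂ) (M : FI K)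
    (x₀ ρ : K) (ι : Type) (J : Finset ι) (η : ι → 𝓞 K ⧸ k → ℂ) (γ : ι → 𝓞 K),
    FP l k M x₀ → k ≤ κ → κ ≤ k.radical → κ ^ 6 ≤ k → FM k κ θ J η γ → ρ ∈ M →
    ∃ (N : ℕ) (cl : K → ℕ), (N : ℝ) ≤ (dvs K k).card * Nf K k.radical ∧ (∀ δ, cl δ < N) ∧
      ∀ t < N, ∃ (e k' : Ideal (𝓞 K)) (E : ι → K → ℂ), e ≤ κ ∧ e ≠ ⊥ ∧ k' ≠ ⊥ ∧
        FT l k k.radical e k' M ρ
          {δ | δ ≠ 0 ∧ 2 * δ ∈ ((l * κ : Ideal (𝓞 K)) : FI K) * M ∧ cl δ = t} J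
          (fun j => cq k (η j) M x₀) E ∧
        CO k.radical e k' J γ E

/-! ### The orthogonality of the characters -/

/-- (BE) Bessel's inequality for the characters in a coset. -/
def D_BE : Prop :=
  ∀ (K : Type) [Field K] [NumberField K] (k κ : Ideal (𝓞 K)) (M : FI K) (x₀ : K)
    (H : Finset (𝓞 K ⧸ k → ℂ)) (η₀ : 𝓞 K ⧸ k → ℂ) (X : Finset K) (a : K → ℂ), k ≠ ⊥ → k ≤ κ →
    κ ≤ k.radical → M ≠ 0 → Gn k M x₀ → MC η₀ → (∀ η ∈ H, MC η) →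
    (∀ η ∈ H, ∀ j ∈ κ, η (Ideal.Quotient.mk k (1 + j)) = η₀ (Ideal.Quotient.mk k (1 + j))) →
    (∀ x ∈ X, x ∈ M) → open scoped Classical in
    ∑ η ∈ H, ‖∑ x ∈ X, cq k η M x₀ x * a x‖ ^ 2 ≤
      Nf K κ * (∑ x ∈ X, ∑ x' ∈ X, if x - x' ∈ (κ : FI K) * M then
        cq k η₀ M x₀ x * (starRingEnd ℂ) (cq k η₀ M x₀ x') *
          (a x * (starRingEnd ℂ) (a x')) else 0).re

/-- (NC) the number of the multiplicative characters. -/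
def D_NC : Prop :=
  ∀ (K : Type) [Field K] [NumberField K] (k : Ideal (𝓞 K)) (H : Finset (𝓞 K ⧸ k → ℂ)), k ≠ ⊥ →
    (∀ η ∈ H, MC η) → (H.card : ℝ) ≤ Nf K k

/-! ### Counting Hecke characters -/

/-- (EX) the quotient of two characters with the same component at `k` is a character
modulo `l`. -/
def D_EX : Prop :=
  ∀ (K : Type) [Field K] [NumberField K] (l k : Ideal (𝓞 K)) (χ₀ : HG K (l * k)), l ≠ ⊥ →
    k ≠ ⊥ → l ⊔ k = ⊤ → ∃ h : HG K (l * k) → HG K l,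
    (∀ χ : HG K (l * k), (∀ v : InfinitePlace K, v.IsReal → χ.k v = χ₀.k v) →
      (∀ a : 𝓞 K, a ≠ 0 → a - 1 ∈ l → Ideal.span {a} ⊔ k = ⊤ →
        χ.ψ (Ideal.span {a}) * (starRingEnd ℂ) (ag χ.k (a : K) * ph χ.ν (a : K)) =
          χ₀.ψ (Ideal.span {a}) * (starRingEnd ℂ) (ag χ₀.k (a : K) * ph χ₀.ν (a : K))) →
      (h χ).k = χ.k - χ₀.k ∧ (h χ).ν = χ.ν - χ₀.ν ∧
      ∀ I : Ideal (𝓞 K), I ≠ ⊥ → I ⊔ l * k = ⊤ →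
        (h χ).ψ I = χ.ψ I * (starRingEnd ℂ) (χ₀.ψ I))

/-- the local components: a choice of `η` for every Hecke character -/
def LoC (K : Type) [Field K] [NumberField K] (l k : Ideal (𝓞 K))
    (η : HG K (l * k) → 𝓞 K ⧸ k → ℂ) : Prop :=
  ∀ χ : HG K (l * k), PrG k χ → LC k (η χ) ∧
    ∀ (M : FI K) (x₀ : K), M ≠ 0 → Gn (l * k) M x₀ → ∃ c : K → ℂ, (∀ x ∈ M, ‖c x‖ ≤ 1) ∧
      (∀ x ∈ M, ∀ t ∈ (l : FI K) * M, c (x + t) = c x) ∧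
      ∀ x ∈ M, cg χ M x = c x * cq k (η χ) M x₀ x

/-- (SP) spacing of the frequencies. -/
def D_SP : Prop :=
  ∀ n : ℕ, 0 < n → ∃ C : ℝ, 1 ≤ C ∧ ∀ (K : Type) [Field K] [NumberField K],
    Module.finrank ℚ K = n → ∀ (l k : Ideal (𝓞 K)), LK l k →
    ∀ η : HG K (l * k) → 𝓞 K ⧸ k → ℂ, LoC K l k η → ∀ S : Finset (HG K (l * k) × ℝ),
    Pool.Agent.H27.TM.Sp1 S → (∀ q ∈ S, PrG k q.1) →
    SpE S (fun q => η q.1) Pool.Agent.H27.TM.cq (C * (Pool.Agent.H31.SW.dK K * Nf K l) ^ 3)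

end Pool.Agent.H23.DM
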