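import Pool.Agent.H31.SX.Defs
import Pool.Agent.H27.TM.Defs

/-!
# The twelfth moment of Hecke L-functions in the whole conductor: definitions
-/

set_option autoImplicit false

open NumberField NumberField.InfinitePlace NumberField.Units
  NumberField.Units.dirichletUnitTheorem MeasureTheory Set Filter Complex
open scoped nonZeroDivisors ENNReal

namespace Pool.Agent.H23.DM

open Pool.Agent.H25.HK Pool.Agent.H23.LB Pool.Agent.H23.LC
open Pool.Agent.H28.RC (Rep ft idl)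
open Pool.Agent.H29.DW (dg Rl lf wv Pos Wg cpar Ci om zs rv Wt PrG)
open Pool.Agent.H29.TC (Gn LC cq dvs AC MC)
open Pool.Agent.H31.SW (EE itg FF HD DB DS dif Pf GG G2 DD PP pF dK pz ps Tf WG)
open Pool.Agent.H31.SX (ND RK Gcd LK)
open Pool.Agent.H27.TM (Sh S4 lo Maj G3 kp El Cr Am mf Dl mc Ep Cls Spc bt th1)

/-! ### Finite rings -/

section ring

variable {R : Type} [CommRing R]

/-- the logarithm of `1 + j` for `j ^ 6 = 0` -/
noncomputable def lg5 (j : R) : R :=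
  j - Ring.inverse 2 * j ^ 2 + Ring.inverse 3 * j ^ 3 - Ring.inverse 4 * j ^ 4 +
    Ring.inverse 5 * j ^ 5

/-- the phase `2 / Y + (2 / 3) a ^ 2 / Y ^ 3 + (2 / 5) a ^ 4 / Y ^ 5` -/
noncomputable def h5 (a Y : R) : R :=
  2 * Ring.inverse Y + 2 * Ring.inverse 3 * a ^ 2 * Ring.inverse Y ^ 3 +
    2 * Ring.inverse 5 * a ^ 4 * Ring.inverse Y ^ 5

/-- `γ` is the frequency of the multiplicative character `η` on `1 + J` -/
def Fq (θ : R → ℂ) (J : Ideal R) (η : R → ℂ) (γ : R) : Prop := ∀ j ∈ J, η (1 + j) = θ (γ * lg5 j)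

open scoped Classical in
/-- the correlation of two frequencies -/
noncomputable def CS [Fintype R] (θ : R → ℂ) (I : Ideal R) (a Y₀ γ γ' x : R) : ℂ :=
  ∑ τ : R, if τ ∈ I then θ (γ * h5 a (Y₀ + τ + x) - γ' * h5 a (Y₀ + τ)) else 0

open scoped Classical in
/-- the dual sum -/
noncomputable def WD [Fintype R] (θ : R → ℂ) (I : Ideal R) (a Y₀ γ b : R) : ℂ :=
  ∑ τ : R, if τ ∈ I then θ (γ * h5 a (Y₀ + τ) - b * τ) else 0

end ring

/-! ### Ideals and lattices -/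

section NF

variable {K : Type} [Field K] [NumberField K]

variable (K) in
/-- the dual position lattice `2 e⁻¹` -/
noncomputable def Mz (e : Ideal (𝓞 K)) : FI K :=
  ((Ideal.span {(2 : 𝓞 K)} : Ideal (𝓞 K)) : FI K) * (e : FI K)⁻¹

variable (K) in
/-- the lattice of the products `δ ξ` -/
noncomputable def Nz (r k' e : Ideal (𝓞 K)) : FI K :=
  du K (((r ⊓ k' : Ideal (𝓞 K)) : FI K) * Mz K e)

/-- the coefficient of the midpoint `u` for the half difference `δ` -/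
noncomputable def cm (l r : Ideal (𝓞 K)) (M : FI K) (ρ δ : K) (q : K → ℂ) (u : K) : ℂ :=
  ci K (l * r) M (ρ + δ) u * (q (u + δ) * (starRingEnd ℂ) (q (u - δ)))

/-- The Fourier transforms of the coefficients of the midpoints depend on the product of `δ` and the
dual variable only. -/
structure FT (l k r e k' : Ideal (𝓞 K)) (M : FI K) (ρ : K) (A : Set K) {ι : Type} (I : Finset ι)
    (q E : ι → K → ℂ) : Prop where
  ke : k = e * k'
  mem : ∀ δ ∈ A, δ ≠ 0 ∧ 2 * δ ∈ ((l * e : Ideal (𝓞 K)) : FI K) * M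
  norm : ∀ i ∈ I, ∀ x ∈ M, ‖q i x‖ ≤ 1
  per : ∀ δ ∈ A, ∀ i ∈ I, ∀ x ∈ M, ∀ t ∈ ((l * (r ⊓ k') : Ideal (𝓞 K)) : FI K) * M,
    cm l r M ρ δ (q i) (x + t) = cm l r M ρ δ (q i) x
  ft : ∀ δ ∈ A, ∃ φ : K → ℂ, (∀ ξ, ‖φ ξ‖ ≤ 1) ∧ ∀ i ∈ I, ∀ X : Finset K,
    Rep K (l * (r ⊓ k')) M X → ∀ ξ ∈ du K (((l * (r ⊓ k') : Ideal (𝓞 K)) : FI K) * M),
      ft K X (cm l r M ρ δ (q i)) ξ = ((Real.sqrt (Nf K k') : ℝ) : ℂ) * φ ξ * E i (δ * ξ)

/-- The correlations of the dual functions. -/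
structure CO (r e k' : Ideal (𝓞 K)) {ι : Type} (I : Finset ι) (γ : ι → 𝓞 K) (E : ι → K → ℂ) :
    Prop where
  norm : ∀ i ∈ I, ∀ ν ∈ Nz K r k' e, ‖E i ν‖ ^ 2 ≤ Nf K r
  zero : ∀ i ∈ I, E i 0 ≠ 0 → r ≤ k'
  cor : ∀ i ∈ I, ∀ j ∈ I, ∃ (C : K → ℂ) (g : Ideal (𝓞 K)), g ≠ ⊥ ∧
    Nf K (k' ⊔ Ideal.span {γ i - γ j}) ≤ Nf K g * Nf K r ∧
    (∀ x ∈ Mz K e, ∀ t ∈ ((r ⊓ k' : Ideal (𝓞 K)) : FI K) * Mz K e, C (x + t) = C x) ∧
    (∀ x ∈ Mz K e, ‖C x‖ ^ 2 ≤ Nf K (k' ⊔ Ideal.span {γ i - γ j}) / Nf K k') ∧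
    (∀ x ∈ Mz K e, C x ≠ 0 → x ∈ (g : FI K) * Mz K e) ∧
    (C 0 ≠ 0 → ∀ t ∈ r, (γ i - γ j) * t ∈ k') ∧
    ∀ X : Finset K, Rep K (r ⊓ k') (Mz K e) X → ∀ ν ∈ Nz K r k' e,
      ft K X C ν = E i ν * (starRingEnd ℂ) (E j ν)

/-- A family of primitive characters with frequencies. -/
structure FM (k κ : Ideal (𝓞 K)) (θ : 𝓞 K ⧸ k → ℂ) {ι : Type} (J : Finset ι)
    (η : ι → 𝓞 K ⧸ k → ℂ) (γ : ι → 𝓞 K) : Prop where
  nd : ND θ
  lc : ∀ j ∈ J, LC k (η j)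
  fq : ∀ j ∈ J, Fq θ (κ.map (Ideal.Quotient.mk k)) (η j) (Ideal.Quotient.mk k (γ j))

/-- The data at a fixed position: `l` is even, `(k, 210 l) = 1`, `x₀` is a generator of `M` modulo
`l k`. -/
structure FP (l k : Ideal (𝓞 K)) (M : FI K) (x₀ : K) : Prop where
  lk : LK l k
  ev : l ≤ Ideal.span {(2 : 𝓞 K)}
  M_ne : M ≠ 0
  gen : Gn (l * k) M x₀

/-- The chain of the ideals `κ` and `κ ^ 3 + k`. -/
structure Ch (k κ b κ₃ b₃ : Ideal (𝓞 K)) : Prop where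
  k_le : k ≤ κ
  le : κ ≤ k.radical
  b_eq : k = κ * b
  κ₃_eq : κ₃ = κ ^ 3 ⊔ k
  b₃_eq : k = κ₃ * b₃

/-- the lattice sum with the coefficients `q` -/
noncomputable def SQ (p : Bool → ℂ → ℂ) (L : FI K) (y : InfinitePlace K → ℝ)
    (ω : InfinitePlace K → ℂ) (ρ : K) (q : K → ℂ) (c : InfinitePlace K → ℂ) : ℂ :=
  ∑' x : {x : K // x ∈ L}, q (ρ + x) * pF (fun v => GG (p (rv v)) (c v)) y ω (ρ + x)

open scoped Classical in
/-- the sum over the pairs which are congruent modulo `L'` -/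
noncomputable def MP (q₁ Ψ : Bool → ℂ → ℂ) (L L' : FI K) (y : InfinitePlace K → ℝ)
    (ω : InfinitePlace K → ℂ) (ρ : K) (q : K → ℂ) (G : InfinitePlace K → ℝ)
    (c : InfinitePlace K → ℂ) : ℂ :=
  ∑' x : {x : K // x ∈ L}, ∑' x' : {x : K // x ∈ L}, if (x : K) - x' ∈ L' then
    q (ρ + x) * (starRingEnd ℂ) (q (ρ + x')) * ∏ v : InfinitePlace K,
      mf (q₁ (rv v)) (Ψ (rv v)) (G v) (c v) (wv v (ρ + x) y ω) (wv v (ρ + x') y ω) else 0

/-- the sum over the pairs with a half difference in `A` -/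
noncomputable def OQ (q₁ Ψ : Bool → ℂ → ℂ) (A : Set K) (L : FI K) (y : InfinitePlace K → ℝ)
    (ω : InfinitePlace K → ℂ) (ρ : K) (q : K → ℂ) (G : InfinitePlace K → ℝ)
    (c : InfinitePlace K → ℂ) : ℂ :=
  ∑ᶠ δ ∈ A, ∑' x : {x : K // x ∈ L}, q (ρ + δ + x + δ) * (starRingEnd ℂ) (q (ρ + δ + x - δ)) *
    pF (fun v => G3 (q₁ (rv v)) (Ψ (rv v)) (G v) (c v) (wv v δ y ω)) y ω (ρ + δ + x)

/-- the number of the half differences in `A` which divide `ν` -/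
noncomputable def de (A : Set K) (N : FI K) (ν : K) : ℝ := ({δ | δ ∈ A ∧ ν / δ ∈ N}.ncard : ℝ)

/-- at most `D` indices with the same character and frequencies in a unit box -/
def SpE {k : Ideal (𝓞 K)} {ι : Type} (J : Finset ι) (η : ι → 𝓞 K ⧸ k → ℂ)
    (c : ι → InfinitePlace K → ℂ) (D : ℝ) : Prop :=
  open scoped Classical in
  ∀ (η₀ : 𝓞 K ⧸ k → ℂ) (c₀ : InfinitePlace K → ℂ),
    ((J.filter fun j => η j = η₀ ∧ ∀ v, ‖c j v - c₀ v‖ ≤ 1).card : ℝ) ≤ D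

/-- at most `D` indices with finite frequencies in a class modulo `b` and infinite frequencies in a
box with the radii `G` -/
def SpG {ι : Type} (J : Finset ι) (b : Ideal (𝓞 K)) (γ : ι → 𝓞 K) (c : ι → InfinitePlace K → ℂ)
    (G : InfinitePlace K → ℝ) (D : ℝ) : Prop :=
  open scoped Classical in
  ∀ (γ₀ : 𝓞 K) (c₀ : InfinitePlace K → ℂ),
    ((J.filter fun j => γ j - γ₀ ∈ b ∧ ∀ v, ‖c j v - c₀ v‖ ≤ G v).card : ℝ) ≤ D

end NF

end Pool.Agent.H23.DM
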